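import Pool.Agent.Helper47.Gom2.GCheck
import Pool.Agent.Helper93.Gomoku.Sym

set_option autoImplicit false

namespace Pool.Agent.Gomoku

open Finset

/-! # The check of a root position: two black stones, one white stone, White to move -/

/-- a pair of bitboards from which Black (to move) wins, at every offset -/
def PGood (p : ℕ × ℕ) : Prop := ∀ off, ∃ N, Win N (dec off p.1) (dec off p.2)

/-- a symmetry of board indices: `code` = swap (1 bit), negate x (1 bit), negate y (1 bit),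
tx (6 bits), ty (6 bits). The value is 1024 when the image is outside of the board. -/
def symI (code z : ℕ) : ℕ :=
  let x0 := Nat.mod z 32
  let y0 := Nat.div z 32
  let s := Nat.beq (Nat.mod code 2) 0
  let x := cond s x0 y0
  let y := cond s y0 x0
  let nx := Nat.beq (Nat.mod (Nat.shiftRight code 1) 2) 0
  let ny := Nat.beq (Nat.mod (Nat.shiftRight code 2) 2) 0
  let tx := Nat.mod (Nat.shiftRight code 3) 64
  let ty := Nat.mod (Nat.shiftRight code 9) 64
  cond ((cond nx ((Nat.ble 32 (Nat.add x tx)) && (Nat.ble (Nat.add x tx) 63))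
          ((Nat.ble x tx) && (Nat.ble (Nat.sub tx x) 31))) &&
        (cond ny ((Nat.ble 32 (Nat.add y ty)) && (Nat.ble (Nat.add y ty) 63))
          ((Nat.ble y ty) && (Nat.ble (Nat.sub ty y) 31))))
    (Nat.add (cond nx (Nat.sub (Nat.add x tx) 32) (Nat.sub tx x))
      (Nat.mul 32 (cond ny (Nat.sub (Nat.add y ty) 32) (Nat.sub ty y))))
    1024

def bit1 (x : ℕ) : ℕ := Nat.shiftLeft 1 x

/-- data of a G node with the two black stones `p1`, `p2`: third stone and zone -/
def GDGood (p1 p2 : ℕ) (g : ℕ × ℕ) : Prop :=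
  g.1 < 1024 ∧ ∀ off, cellOf off g.1 ∉ dec off (Nat.lor (bit1 p1) (bit1 p2)) ∧
    insert (cellOf off g.1) (dec off (Nat.lor (bit1 p1) (bit1 p2))) ⊆ dec off g.2 ∧
    GValid (insert (cellOf off g.1) (dec off (Nat.lor (bit1 p1) (bit1 p2)))) ∅ (dec off g.2)
      (fun _ => 2)

/-- `n` ones with distance `d` -/
def pat : ℕ → ℕ → ℕ
  | 0, _ => 0
  | n+1, d => Nat.add (Nat.shiftLeft (pat n d) d) 1

/-- The cell `x + j d` (1 ≤ j ≤ 4) when a cell `x + t d` with `j - 6 ≤ t ≤ 6` is in `KG`, and the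
cell `x - j d` when a cell `x + t d` with `-6 ≤ t ≤ 6 - j` is in `KG`. `KGs = KG * 2 ^ (6 d)`. -/
def badJ (KGs x d j : ℕ) : ℕ :=
  let p := pat (Nat.sub 13 j) d
  let e := Nat.mul j d
  Nat.lor
    (cond (Nat.beq (Nat.land KGs (Nat.shiftLeft p (Nat.add x e))) 0) 0 (bit1 (Nat.add x e)))
    (cond (Nat.beq (Nat.land KGs (Nat.shiftLeft p x)) 0) 0 (bit1 (Nat.sub x e)))

def badDir (KG x d : ℕ) : ℕ :=
  let KGs := Nat.shiftLeft KG (Nat.mul 6 d)
  Nat.lor (Nat.lor (badJ KGs x d 1) (badJ KGs x d 2)) (Nat.lor (badJ KGs x d 3) (badJ KGs x d 4))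

/-- the replies near `x` on lines that come close to `KG` -/
def badLines (KG x : ℕ) : ℕ :=
  Nat.lor (Nat.lor (badDir KG x 1) (badDir KG x 32)) (Nat.lor (badDir KG x 33) (badDir KG x 31))

/-- the reply `y` is answered. `w` = kind (1 bit), data -/
def rootEnt (gt : ℕ → Item) (gp : ℕ → ℕ × ℕ) (p1 p2 x y w : ℕ) : Bool :=
  let kind := Nat.mod w 2
  let r := Nat.shiftRight w 1
  let Bm := Nat.lor (bit1 p1) (bit1 p2)
  let xy := Nat.lor (bit1 x) (bit1 y)
  cond (Nat.beq kind 0)
    (let it := gt (Nat.mod r 1048576)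
     let dx := Nat.mod (Nat.shiftRight r 20) 32
     let dy := Nat.mod (Nat.shiftRight r 25) 32
     let i := it.inst dx dy
     let X0 := minus xy i.W
     (geOK it dx dy) && (Nat.beq (Nat.land Bm i.B) i.B) && (Nat.beq (Nat.land X0 i.K) 0) &&
       (single X0))
    (let pr := gp (Nat.mod r 1048576)
     let code := Nat.shiftRight r 20
     let a1 := symI code p1
     let a2 := symI code p2
     let z1 := symI code x
     let z2 := symI code y
     (Nat.blt a1 1024) && (Nat.blt a2 1024) && (Nat.blt z1 1024) && (Nat.blt z2 1024) &&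
       (subB pr.1 (Nat.lor (bit1 a1) (bit1 a2))) && (subB (Nat.lor (bit1 z1) (bit1 z2)) pr.2))

def rootLoop (gt : ℕ → Item) (gp : ℕ → ℕ × ℕ) (p1 p2 x : ℕ) : List ℕ → ℕ → Bool
  | [], U => subB U (Nat.lor (Nat.lor (bit1 p1) (bit1 p2)) (bit1 x))
  | w :: l, U =>
    let y := Nat.mod w 1024
    cond (rootEnt gt gp p1 p2 x y (Nat.shiftRight w 10))
      (rootLoop gt gp p1 p2 x l (minus U (bit1 y))) false

/-- `x` is an inner cell -/
def innerB (x : ℕ) : Bool := (Nat.blt x 1024) && (Nat.beq (Nat.land NIM (bit1 x)) 0)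

/-- the replies that are not covered by the null `wd`: kind 0, a library item with `x` among its
white stones (index, dx, dy); kind 1, a G node (index in `gd`). -/
def rootNullOK (gt : ℕ → Item) (gd : ℕ → ℕ × ℕ) (p1 p2 x wd : ℕ) : Bool :=
  let Bm := Nat.lor (bit1 p1) (bit1 p2)
  let r := Nat.shiftRight wd 1
  cond (Nat.beq (Nat.mod wd 2) 0)
    (let it := gt (Nat.mod r 1048576)
     let dx := Nat.mod (Nat.shiftRight r 20) 32
     let dy := Nat.mod (Nat.shiftRight r 25) 32
     let i := it.inst dx dy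
     (geOK it dx dy) && (Nat.beq (Nat.land Bm i.B) i.B) && (subB (bit1 x) i.W))
    (Nat.beq (Nat.land (bit1 x) (gd (Nat.mod r 1048576)).2) 0)

def rootNullU (gt : ℕ → Item) (gd : ℕ → ℕ × ℕ) (x wd : ℕ) : ℕ :=
  let r := Nat.shiftRight wd 1
  cond (Nat.beq (Nat.mod wd 2) 0)
    (((gt (Nat.mod r 1048576)).inst (Nat.mod (Nat.shiftRight r 20) 32)
      (Nat.mod (Nat.shiftRight r 25) 32)).K)
    (let KG := (gd (Nat.mod r 1048576)).2
     Nat.lor KG (badLines KG x))

/-- further nulls -/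
def rootNulls (gt : ℕ → Item) (gp gd : ℕ → ℕ × ℕ) (p1 p2 x : ℕ) (l : List ℕ) :
    List ℕ → ℕ → Bool
  | [], U => rootLoop gt gp p1 p2 x l U
  | wd :: nl, U =>
    cond (rootNullOK gt gd p1 p2 x wd)
      (rootNulls gt gp gd p1 p2 x l nl (Nat.land U (rootNullU gt gd x wd))) false

/-- the root check: `wd :: nl` are the null items, `l` the explicit replies -/
def rootChk (gt : ℕ → Item) (gp gd : ℕ → ℕ × ℕ) (p1 p2 x wd : ℕ) (nl l : List ℕ) : Bool :=
  let Bm := Nat.lor (bit1 p1) (bit1 p2)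
  (innerB x) && (innerB p1) && (innerB p2) && (Nat.beq (Nat.land Bm (bit1 x)) 0) &&
  (rootNullOK gt gd p1 p2 x wd) &&
  (rootNulls gt gp gd p1 p2 x l nl (rootNullU gt gd x wd))

end Pool.Agent.Gomoku
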