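import Pool.Agent.Helper47.Gom2.ItemSem

set_option autoImplicit false

namespace Pool.Agent.Gomoku

open Finset

/-- soundness of VCF lines -/
theorem evF_sound2 {off : Cell} : ∀ (m wd : ℕ) (s : St) (K C1 C2 K' C1' C2' : ℕ),
    Inv off s → Sub s.b K → Sub s.w K → evF m wd s K C1 C2 = R3.ok K' C1' C2' →
    Sub K K' ∧ Sub C1 C1' ∧ Sub C2 C2' ∧
    Valid2 ⟨dec off s.b, dec off s.w, dec off K', capOf off C1' C2' 3⟩ := by
  intro m
  induction m with
  | zero =>
    intro wd s K C1 C2 K' C1' C2' hI hbK hwK h
    unfold evF at h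
    simp only at h
    set c := Nat.mod wd 1024 with hc
    have hclt : c < 1024 := Nat.mod_lt _ (by norm_num)
    rw [cond_eq_ite] at h
    split_ifs at h with hcond
    · simp only [R3.ok.injEq] at h
      obtain ⟨rfl, rfl, rfl⟩ := h
      simp only [Bool.and_eq_true] at hcond
      obtain ⟨hf, h5⟩ := hcond
      obtain ⟨hin, hb, hw⟩ := isFree_spec hclt hf
      obtain ⟨hl1, hl2⟩ := fiveOK_spec h5 off
      refine ⟨sub_lor_left _ _, Sub.refl _, Sub.refl _, ?_⟩
      apply valid2_of_five (c := cellOf off c)
      · rw [cellOf_mem_dec hclt, hw]; simp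
      · rw [cellOf_mem_dec hclt, tb_lor, tb_bit]; simp
      · refine ⟨_, hl1, ?_⟩
        rw [← dec_insert hclt]
        exact hl2
  | succ m ih =>
    intro wd s K C1 C2 K' C1' C2' hI hbK hwK h
    unfold evF at h
    simp only at h
    set c := Nat.mod wd 1024 with hc
    set t := Nat.mod (Nat.shiftRight wd 10) 1024 with ht
    have hclt : c < 1024 := Nat.mod_lt _ (by norm_num)
    have htlt : t < 1024 := Nat.mod_lt _ (by norm_num)
    rw [cond_eq_ite] at h
    split_ifs at h with hcond
    · simp only [Bool.and_eq_true] at hcond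
      obtain ⟨⟨⟨hf, hf2⟩, h5⟩, ha4⟩ := hcond
      have ha4 := eq_of_beq ha4
      obtain ⟨hin, hb, hw⟩ := isFree_spec hclt hf
      obtain ⟨htin, htb, htw⟩ := isFree_spec htlt hf2
      obtain ⟨hl1, hl2⟩ := fiveOK_spec h5 off
      have hI1 : Inv off (s.addB c) := hI.addB hin hw
      have hI2 : Inv off ((s.addB c).addW t) := hI1.addW htin htb
      have hs1b : (s.addB c).b = Nat.lor s.b (Nat.shiftLeft 1 c) := rfl
      have hs1w : (s.addB c).w = s.w := rfl
      obtain ⟨hKK, hC1, hC2, hV⟩ := ih _ _ _ _ _ _ _ _ hI2 (by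
          show Sub (Nat.lor s.b (Nat.shiftLeft 1 c)) _
          apply Sub.lor
          · exact hbK.trans ((sub_lor_left _ _).trans (sub_lor_left _ _))
          · exact (sub_lor_left _ _).trans ((sub_lor_right _ _).trans (sub_lor_left _ _)))
        (by
          show Sub (Nat.lor s.w (Nat.shiftLeft 1 t)) _
          apply Sub.lor
          · exact hwK.trans ((sub_lor_left _ _).trans (sub_lor_left _ _))
          · exact (sub_lor_right _ _).trans ((sub_lor_right _ _).trans (sub_lor_left _ _))) h
      have hKc := hKK.of_lor_left.of_lor_right.of_lor_left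
      have hKt := hKK.of_lor_left.of_lor_right.of_lor_right
      have hKK0 := hKK.of_lor_left.of_lor_left
      have hK3 := hKK.of_lor_right
      refine ⟨hKK0, hC1.of_lor_left, hC2.of_lor_left, ?_⟩
      apply valid2_of_and (c := cellOf off c) (K' := dec off K') (cap' := capOf off C1' C2' 3)
      · rw [cellOf_mem_dec hclt, hw]; simp
      · rw [cellOf_mem_dec hclt]; exact hKc.bit
      · exact Finset.Subset.refl _
      · intro L _ _
        exact min_le_left _ _
      rw [← dec_insert hclt]
      apply andValid2_four (t := cellOf off t) (K' := dec off K') (cap' := capOf off C1' C2' 3)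
      · apply Sub.dec
        exact hwK.trans hKK0
      · rw [cellOf_mem_dec htlt]; rw [hs1w] at htw; rw [htw]; simp
      · rw [cellOf_mem_dec htlt]; exact hKt.bit
      · refine ⟨_, hl1, ?_⟩
        rw [← dec_insert htlt]
        exact hl2
      · exact check3 hI1 ha4 hK3 hC1.of_lor_right hC2.of_lor_right
      · exact Finset.Subset.refl _
      · intro L _ _
        exact min_le_left _ _
      · have e : insert (cellOf off t) (dec off s.w) = dec off ((s.addB c).addW t).w := by
          show _ = dec off (Nat.lor s.w (Nat.shiftLeft 1 t))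
          rw [dec_insert htlt]
        rw [e]
        exact hV

end Pool.Agent.Gomoku
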