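import Pool.Agent.Helper47.Gom2.EvFSound

set_option autoImplicit false

namespace Pool.Agent.Gomoku

open Finset

theorem validV2_mono {off : Cell} {v : Bool} {s : St} {K C1 K' C1' : ℕ} (hK : Sub K K')
    (hC : Sub C1 C1') (h : Valid2 (dataV off v s K C1)) : Valid2 (dataV off v s K' C1') := by
  unfold dataV at *
  apply h.weaken (hK.dec off)
  intro L _ _
  exact (min_le_left _ _).trans (capV_mono hC)

/-- `y` is covered by `D` for all final accumulators above `K, C1`. -/
def CovV2 (off : Cell) (v : Bool) (s : St) (K C1 : ℕ) (D : Data) (y : Cell) : Prop :=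
  ∀ K' C1', Sub K K' → Sub C1 C1' →
    Covers2 (dec off s.b) (dec off s.w) (dec off K') (capV off v C1') D y

theorem CovV2.mono {off : Cell} {v : Bool} {s : St} {K C1 K2 C12 : ℕ} {D : Data} {y : Cell}
    (h : CovV2 off v s K C1 D y) (hK : Sub K K2) (hC : Sub C1 C12) : CovV2 off v s K2 C12 D y :=
  fun K' C1' h1 h2 => h K' C1' (hK.trans h1) (hC.trans h2)

theorem card_ins_le {L W W' : Finset Cell} {y : Cell} :
    (L ∩ (insert y W \ W')).card ≤ (L ∩ (W \ W')).card + 1 := by
  have : L ∩ (insert y W \ W') ⊆ insert y (L ∩ (W \ W')) := by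
    intro c hc
    simp only [Finset.mem_inter, Finset.mem_sdiff, Finset.mem_insert] at hc ⊢
    tauto
  exact (Finset.card_le_card this).trans (Finset.card_insert_le _ _)

theorem card_ins_le' {L W W' : Finset Cell} {y : Cell} (hy : y ∉ L) :
    (L ∩ (insert y W \ W')).card ≤ (L ∩ (W \ W')).card := by
  apply Finset.card_le_card
  intro c hc
  simp only [Finset.mem_inter, Finset.mem_sdiff, Finset.mem_insert] at hc ⊢
  obtain ⟨h1, h2 | h2, h3⟩ := hc
  · subst h2; exact absurd h1 hy
  · exact ⟨h1, h2, h3⟩

/-- a library item as null item -/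
theorem covV2_item {off : Cell} {v : Bool} {s : St} {it : Item} {dx dy : ℕ}
    (h2 : 2 ≤ it.g) (h3 : it.g ≤ 3) (hv : v = true → it.g = 3) {x : St}
    (hf : Fits2 off s x (it.inst dx dy)) {y : Cell}
    (hy : y ∉ dec off (Nat.lor (it.inst dx dy).K (cellsOf0 (mR0 x (it.inst dx dy))))) :
    CovV2 off v s (Nat.lor (it.inst dx dy).K (cellsOf0 (mR1 x (it.inst dx dy))))
      (mR2 x (it.inst dx dy)) (it.data off dx dy) y := by
  set i := it.inst dx dy with hi
  intro K' C1' hK hC
  rw [dec_lor, Finset.mem_union, not_or] at hy
  have hcapG : (it.data off dx dy).cap = capOf off i.C1 i.C2 it.g := by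
    show capG off it.g i.C1 i.C2 = _
    unfold capG
    rw [if_neg (by omega)]
  refine ⟨hf.hB, ?_, ?_, ?_⟩
  · rw [Finset.disjoint_left]
    intro c hc
    rw [Finset.mem_sdiff, Finset.mem_insert] at hc
    rcases hc.1 with rfl | h
    · exact hy.1
    · exact fun hcK => Finset.disjoint_left.1 hf.hK (Finset.mem_sdiff.2 ⟨h, hc.2⟩) hcK
  · exact hK.of_lor_left.dec off
  · intro L hL hd
    have hOK : InsOK it.g i := insOK_inst h2 h3
    obtain ⟨c0, c1, c2, c3⟩ := hf.cap hOK hL hd
    rw [hcapG]
    have hle := card_ins_le (L := L) (W := dec off s.w) (W' := (it.data off dx dy).W) (y := y)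
    have hWW : (it.data off dx dy).W = dec off i.W := rfl
    rw [hWW] at hle ⊢
    have hceff : ceff (dec off K') (capV off v C1') L ≤ capV off v C1' L := min_le_left _ _
    have hK1 : Sub (cellsOf0 (mR1 x i)) K' := hK.of_lor_right
    by_cases d0 : capOf off i.C1 i.C2 it.g L ≤ (L ∩ (dec off s.w \ dec off i.W)).card
    · have hle' := card_ins_le' (L := L) (W := dec off s.w)
        (W' := dec off i.W) (notMem_of_inMask (c1 d0) hy.2)
      rw [ceff_zero (c2 (by omega)) hK1]
      omega
    by_cases d1 : capOf off i.C1 i.C2 it.g L ≤ (L ∩ (dec off s.w \ dec off i.W)).card + 1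
    · rw [ceff_zero (c2 d1) hK1]
      omega
    cases v
    · have := capV_le1 (off := off) (v := false) (C1 := C1') (L := L) (Or.inl rfl)
      omega
    · by_cases d2 : capOf off i.C1 i.C2 it.g L = (L ∩ (dec off s.w \ dec off i.W)).card + 2
      · have := capV_le1 (off := off) (v := true) (C1 := C1') (L := L)
          (Or.inr (hC.inMask (c3 (hv rfl) d2)))
        omega
      · have := capV_le2 (off := off) (v := true) (C1 := C1') (L := L)
        omega

theorem ins_sdiff_self {W : Finset Cell} {y : Cell} (hy : y ∉ W) : insert y W \ W = {y} := by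
  ext c
  simp only [Finset.mem_sdiff, Finset.mem_insert, Finset.mem_singleton]
  constructor
  · rintro ⟨h | h, h'⟩
    · exact h
    · exact absurd h h'
  · rintro rfl
    exact ⟨Or.inl rfl, hy⟩

/-- a VCF line at the current position as null item -/
theorem covV2_line {off : Cell} {v : Bool} {s : St} {Kv C1v C2v : ℕ}
    {y : Cell} (hyW : y ∉ dec off s.w)
    (hy : y ∉ dec off Kv) :
    CovV2 off v s (Nat.lor Kv (cellsOf0 C1v)) C2v
      ⟨dec off s.b, dec off s.w, dec off Kv, capOf off C1v C2v 3⟩ y := by
  intro K' C1' hK hC
  have hsd := ins_sdiff_self hyW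
  refine ⟨Finset.Subset.refl _, ?_, ?_, ?_⟩
  · simp only
    rw [hsd, Finset.disjoint_singleton_left]
    exact hy
  · exact hK.of_lor_left.dec off
  · intro L hL hd
    simp only
    rw [hsd]
    have h1 : (L ∩ {y}).card ≤ 1 :=
      (Finset.card_le_card Finset.inter_subset_right).trans (by simp)
    have hceff : ceff (dec off K') (capV off v C1') L ≤ capV off v C1' L := min_le_left _ _
    by_cases d1 : InMask off C1v L
    · rw [ceff_zero d1 hK.of_lor_right, capOf_le_of_c1 d1]
      omega
    by_cases d2 : InMask off C2v L
    · have h3 : capOf off C1v C2v 3 L = 2 := by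
        unfold capOf
        rw [if_neg d1, if_pos d2]
      have := capV_le1 (off := off) (v := v) (C1 := C1') (L := L) (Or.inr (hC.inMask d2))
      omega
    · have h3 : capOf off C1v C2v 3 L = 3 := by
        unfold capOf
        rw [if_neg d1, if_neg d2]
      have := capV_le2 (off := off) (v := v) (C1 := C1') (L := L)
      omega

/-- an inline subtree of level 2 as null item of level 1 -/
theorem covV2_tree {off : Cell} {s : St} {Kv C1v : ℕ}
    {y : Cell} (hyW : y ∉ dec off s.w)
    (hy : y ∉ dec off Kv) :
    CovV2 off false s (Nat.lor Kv (cellsOf0 C1v)) 0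
      (dataV off true s Kv C1v) y := by
  intro K' C1' hK hC
  have hsd := ins_sdiff_self hyW
  refine ⟨Finset.Subset.refl _, ?_, ?_, ?_⟩
  · show Disjoint (insert y (dec off s.w) \ dec off s.w) (dec off Kv)
    rw [hsd, Finset.disjoint_singleton_left]
    exact hy
  · exact hK.of_lor_left.dec off
  · intro L hL hd
    show (L ∩ (insert y (dec off s.w) \ dec off s.w)).card + _ ≤ capV off true C1v L
    rw [hsd]
    have h1 : (L ∩ {y}).card ≤ 1 :=
      (Finset.card_le_card Finset.inter_subset_right).trans (by simp)
    have hceff : ceff (dec off K') (capV off false C1') L ≤ capV off false C1' L :=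
      min_le_left _ _
    have hone := capV_le1 (off := off) (v := false) (C1 := C1') (L := L) (Or.inl rfl)
    unfold capV at *
    rw [if_pos rfl]
    by_cases d1 : InMask off C1v L
    · rw [ceff_zero d1 hK.of_lor_right, capOf_le_of_c1 d1]
      omega
    · have h3 : capOf off C1v 0 2 L = 2 := by
        unfold capOf
        rw [if_neg d1]
        split_ifs <;> rfl
      omega

/-- specification of the evaluator -/
def HSpec (off : Cell) (v : Bool) (f : St → List ℕ → ℕ → ℕ → RG) : Prop :=
  ∀ (s : St) (st : List ℕ) (K C1 : ℕ) (st' : List ℕ) (K' C1' : ℕ),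
      Inv off s → Sub s.b K → Sub s.w K → f s st K C1 = RG.ok st' K' C1' →
      Sub K K' ∧ Sub C1 C1' ∧ Valid2 (dataV off v s K' C1')

/-- general form; `Q K C1 D y`: the data `D` cover `y` for accumulators above `K, C1` -/
theorem nullsH_gen {off : Cell} {gt : ℕ → Item} (hgt : ∀ i, ItemValid2 (gt i)) {v : Bool}
    {f : St → List ℕ → ℕ → ℕ → RG} (hff : HSpec off true f)
    {s : St} (hI : Inv off s) (Q : ℕ → ℕ → Data → Cell → Prop)
    (hmono : ∀ {K C1 K2 C12 : ℕ} {D : Data} {y : Cell}, Q K C1 D y → Sub K K2 → Sub C1 C12 →
      Q K2 C12 D y)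
    (hitem : ∀ {it : Item} {dx dy : ℕ} {x : St}, 2 ≤ it.g → it.g ≤ 3 → (v = true → it.g = 3) →
      Fits2 off s x (it.inst dx dy) → ∀ {y : Cell}, y ∉ dec off s.w →
      y ∉ dec off (Nat.lor (it.inst dx dy).K (cellsOf0 (mR0 x (it.inst dx dy)))) →
      Q (Nat.lor (it.inst dx dy).K (cellsOf0 (mR1 x (it.inst dx dy))))
        (mR2 x (it.inst dx dy)) (it.data off dx dy) y)
    (hline : ∀ {Kv C1v C2v : ℕ} {y : Cell}, y ∉ dec off s.w → y ∉ dec off Kv →
      Q (Nat.lor Kv (cellsOf0 C1v)) C2v
        ⟨dec off s.b, dec off s.w, dec off Kv, capOf off C1v C2v 3⟩ y)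
    (htree : v = false → ∀ {Kv C1v : ℕ} {y : Cell}, y ∉ dec off s.w → y ∉ dec off Kv →
      Q (Nat.lor Kv (cellsOf0 C1v)) 0 (dataV off true s Kv C1v) y) :
    ∀ (m wd : ℕ) (st : List ℕ) (K C1 U wd' : ℕ) (st' : List ℕ)
    (K' C1' U' : ℕ), nullsH gt v f m wd s st K C1 U = RN.ok wd' st' K' C1' U' →
    Sub K K' ∧ Sub C1 C1' ∧ ∃ I : List Data, (∀ D ∈ I, Valid2 D) ∧
      ∀ y, y ∉ dec off s.w →
        (y ∉ dec off U' → y ∉ dec off U ∨ ∃ D ∈ I, Q K' C1' D y) ∧
        (1 ≤ m → ¬ OnBoard off y → ∃ D ∈ I, Q K' C1' D y) := by
  intro m
  induction m with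
  | zero =>
    intro wd st K C1 U wd' st' K' C1' U' h
    unfold nullsH at h
    simp only [RN.ok.injEq] at h
    obtain ⟨-, -, rfl, rfl, rfl⟩ := h
    refine ⟨Sub.refl _, Sub.refl _, [], by simp, ?_⟩
    intro y hy
    exact ⟨fun h => Or.inl h, fun h => absurd h (by omega)⟩
  | succ m ih =>
    intro wd st K C1 U wd' st' K' C1' U' h
    unfold nullsH at h
    simp only at h
    rw [cond_eq_ite] at h
    split_ifs at h with hidx
    · rw [cond_eq_ite] at h
      split_ifs at h with hidx2
      · -- inline line
        split at h
        · simp at h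
        · rename_i w0 st1
          split at h
          · simp at h
          · rename_i Kv C1v C2v hev
            obtain ⟨hK0, hC0, hC20, hV⟩ := evF_sound2 (off := off) _ _ _ _ _ _ _ _ _ hI
              (sub_lor_left _ _) (sub_lor_right _ _) hev
            obtain ⟨hKK, hCC, I, hIv, hcov⟩ := ih _ _ _ _ _ _ _ _ _ _ h
            refine ⟨hKK.of_lor_left.of_lor_left, hCC.of_lor_left,
              ⟨dec off s.b, dec off s.w, dec off Kv, capOf off C1v C2v 3⟩ :: I, ?_, ?_⟩
            · intro D hD
              rw [List.mem_cons] at hD
              rcases hD with rfl | hD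
              · exact hV
              · exact hIv D hD
            · intro y hy
              obtain ⟨h1, h2⟩ := hcov y hy
              have hcv : y ∉ dec off Kv → Q K' C1'
                  ⟨dec off s.b, dec off s.w, dec off Kv, capOf off C1v C2v 3⟩ y := by
                intro hyK
                refine hmono (hline (C1v := C1v) (C2v := C2v) hy hyK) ?_ hCC.of_lor_right
                exact (hKK.of_lor_left.of_lor_right).lor hKK.of_lor_right
              constructor
              · intro hyU
                rcases h1 hyU with h1 | ⟨D, hD, hc⟩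
                · rw [dec_land, Finset.mem_inter, not_and_or] at h1
                  rcases h1 with h1 | h1
                  · exact Or.inl h1
                  · exact Or.inr ⟨_, List.mem_cons_self, hcv h1⟩
                · exact Or.inr ⟨D, List.mem_cons_of_mem _ hD, hc⟩
              · intro _ hout
                exact ⟨_, List.mem_cons_self, hcv fun hc => hout (onBoard_of_mem hc)⟩
      · -- inline tree
        rw [cond_eq_ite] at h
        split_ifs at h with hvv
        · have hvf : v = false := by simpa using hvv
          split at h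
          · simp at h
          · rename_i st1 Kv C1v hev
            obtain ⟨hK0, -, hV⟩ := hff _ _ _ _ _ _ _ hI (sub_lor_left _ _)
              (sub_lor_right _ _) hev
            obtain ⟨hKK, hCC, I, hIv, hcov⟩ := ih _ _ _ _ _ _ _ _ _ _ h
            refine ⟨hKK.of_lor_left.of_lor_left, hCC,
              dataV off true s Kv C1v :: I, ?_, ?_⟩
            · intro D hD
              rw [List.mem_cons] at hD
              rcases hD with rfl | hD
              · exact hV
              · exact hIv D hD
            · intro y hy
              obtain ⟨h1, h2⟩ := hcov y hy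
              have hcv : y ∉ dec off Kv → Q K' C1' (dataV off true s Kv C1v) y := by
                intro hyK
                refine hmono (htree hvf (C1v := C1v) hy hyK) ?_ ?_
                · exact (hKK.of_lor_left.of_lor_right).lor hKK.of_lor_right
                · intro j hj
                  simp at hj
              constructor
              · intro hyU
                rcases h1 hyU with h1 | ⟨D, hD, hc⟩
                · rw [dec_land, Finset.mem_inter, not_and_or] at h1
                  rcases h1 with h1 | h1
                  · exact Or.inl h1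
                  · exact Or.inr ⟨_, List.mem_cons_self, hcv h1⟩
                · exact Or.inr ⟨D, List.mem_cons_of_mem _ hD, hc⟩
              · intro _ hout
                exact ⟨_, List.mem_cons_self, hcv fun hc => hout (onBoard_of_mem hc)⟩
    · -- library item
      rw [cond_eq_ite] at h
      split_ifs at h with hcond
      · simp only [Bool.and_eq_true] at hcond
        obtain ⟨⟨hge, hf⟩, hgv⟩ := hcond
        obtain ⟨hdx, hdy⟩ := geOK_spec hge
        set it := gt (Nat.mod wd 1048576) with hit
        set dx := Nat.mod (Nat.shiftRight wd 20) 32 with hdx'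
        set dy := Nat.mod (Nat.shiftRight wd 25) 32 with hdy'
        have hf := fits2_spec hI hf
        obtain ⟨hg1, hg3, hval⟩ := hgt (Nat.mod wd 1048576)
        have hg2 : 2 ≤ it.g := by
          cases v
          · exact Nat.le_of_ble_eq_true hgv
          · have := eq_of_beq hgv
            rw [this]; norm_num
        have hgv' : v = true → it.g = 3 := by
          rintro rfl
          exact eq_of_beq hgv
        obtain ⟨hKK, hCC, I, hIv, hcov⟩ := ih _ _ _ _ _ _ _ _ _ _ h
        refine ⟨hKK.of_lor_left.of_lor_left, hCC.of_lor_left,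
          it.data off dx dy :: I, ?_, ?_⟩
        · intro D hD
          rw [List.mem_cons] at hD
          rcases hD with rfl | hD
          · exact hval off dx dy hdx hdy
          · exact hIv D hD
        · intro y hy
          obtain ⟨h1, h2⟩ := hcov y hy
          have hcv : y ∉ dec off (Nat.lor (it.inst dx dy).K
              (cellsOf0 (mR0 (xs s (it.inst dx dy)) (it.inst dx dy)))) →
              Q K' C1' (it.data off dx dy) y := by
            intro hyK
            refine hmono (hitem hg2 hg3 hgv' hf hy hyK) ?_ hCC.of_lor_right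
            exact (hKK.of_lor_left.of_lor_right).lor hKK.of_lor_right
          constructor
          · intro hyU
            rcases h1 hyU with h1 | ⟨D, hD, hc⟩
            · rw [dec_land, Finset.mem_inter, not_and_or] at h1
              rcases h1 with h1 | h1
              · exact Or.inl h1
              · exact Or.inr ⟨_, List.mem_cons_self, hcv h1⟩
            · exact Or.inr ⟨D, List.mem_cons_of_mem _ hD, hc⟩
          · intro _ hout
            exact ⟨_, List.mem_cons_self, hcv fun hc => hout (onBoard_of_mem hc)⟩

theorem nullsH_sound {off : Cell} {gt : ℕ → Item} (hgt : ∀ i, ItemValid2 (gt i)) {v : Bool}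
    {f : St → List ℕ → ℕ → ℕ → RG} (hff : HSpec off true f)
    {s : St} (hI : Inv off s) : ∀ (m wd : ℕ) (st : List ℕ) (K C1 U wd' : ℕ) (st' : List ℕ)
    (K' C1' U' : ℕ), nullsH gt v f m wd s st K C1 U = RN.ok wd' st' K' C1' U' →
    Sub K K' ∧ Sub C1 C1' ∧ ∃ I : List Data, (∀ D ∈ I, Valid2 D) ∧
      ∀ y, y ∉ dec off s.w →
        (y ∉ dec off U' → y ∉ dec off U ∨ ∃ D ∈ I, CovV2 off v s K' C1' D y) ∧
        (1 ≤ m → ¬ OnBoard off y → ∃ D ∈ I, CovV2 off v s K' C1' D y) :=
  nullsH_gen hgt hff hI (CovV2 off v s) (fun h h1 h2 => h.mono h1 h2)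
    (fun h2 h3 hv hf _ _ hy => covV2_item h2 h3 hv hf hy)
    (fun hyW hy => covV2_line hyW hy)
    (fun hv _ _ _ hyW hy => by subst hv; exact covV2_tree hyW hy)

/-- placing a group of white stones -/
theorem addGrp_spec {off : Cell} : ∀ (n cw : ℕ) (s : St) (K U cw' : ℕ) (s' : St) (K' U' : ℕ),
    Inv off s → Sub s.b K → Sub s.w K → addGrp n cw s K U = RY.ok cw' s' K' U' →
    Inv off s' ∧ s'.b = s.b ∧ Sub K K' ∧ Sub s'.w K' ∧ dec off s.w ⊆ dec off s'.w ∧
      (∀ y, y ∈ dec off U → y ∉ dec off U' → y ∈ dec off s'.w) := by
  intro n
  induction n with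
  | zero =>
    intro cw s K U cw' s' K' U' hI hbK hwK h
    unfold addGrp at h
    simp only [RY.ok.injEq] at h
    obtain ⟨-, rfl, rfl, rfl⟩ := h
    exact ⟨hI, rfl, Sub.refl _, hwK, Finset.Subset.refl _, fun y h1 h2 => absurd h1 h2⟩
  | succ n ih =>
    intro cw s K U cw' s' K' U' hI hbK hwK h
    unfold addGrp at h
    simp only at h
    set y0 := Nat.mod cw 1024 with hy0
    have hlt : y0 < 1024 := Nat.mod_lt _ (by norm_num)
    rw [cond_eq_ite] at h
    split_ifs at h with hcond
    · obtain ⟨hin, hb, hw⟩ := isFree_spec hlt hcond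
      have hins : dec off (s.addW y0).w = insert (cellOf off y0) (dec off s.w) :=
        dec_insert hlt
      obtain ⟨r1, r2, r3, r4, r5, r6⟩ := ih _ _ _ _ _ _ _ _ (hI.addW hin hb)
        (by
          show Sub s.b _
          exact hbK.trans (sub_lor_left _ _))
        (by
          show Sub (Nat.lor s.w (Nat.shiftLeft 1 y0)) _
          exact (hwK.trans (sub_lor_left _ _)).lor (sub_lor_right _ _)) h
      rw [hins, Finset.insert_subset_iff] at r5
      refine ⟨r1, r2, r3.of_lor_left, r4, r5.2, ?_⟩
      intro y hyU hyU'
      by_cases hy : y = cellOf off y0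
      · rw [hy]; exact r5.1
      · apply r6 y _ hyU'
        rw [mem_dec] at hyU ⊢
        obtain ⟨i, hi, hbit, rfl⟩ := hyU
        refine ⟨i, hi, ?_, rfl⟩
        rw [tb_minus, hbit, tb_bit]
        have : y0 ≠ i := fun h => hy (by rw [h])
        simp [this]

theorem loopH_sound {off : Cell} {v : Bool} {f : St → List ℕ → ℕ → ℕ → RG}
    (hf : HSpec off v f)
    {s : St} (hI : Inv off s) : ∀ (n cw U : ℕ) (st : List ℕ) (K C1 : ℕ) (st' : List ℕ)
    (K' C1' : ℕ), Sub s.b K → Sub s.w K → loopH f n cw U s st K C1 = RG.ok st' K' C1' →
    Sub K K' ∧ Sub C1 C1' ∧ ∃ I : List Data, (∀ D ∈ I, Valid2 D) ∧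
      ∀ y, y ∈ dec off U → y ∉ dec off s.b → y ∉ dec off s.w →
        ∃ D ∈ I, CovV2 off v s K' C1' D y := by
  intro n
  induction n with
  | zero =>
    intro cw U st K C1 st' K' C1' hbK hwK h
    unfold loopH at h
    simp only at h
    rw [cond_eq_ite] at h
    split_ifs at h with hcond
    · simp only [RG.ok.injEq] at h
      obtain ⟨-, rfl, rfl⟩ := h
      refine ⟨Sub.refl _, Sub.refl _, [], by simp, ?_⟩
      intro y hyU hyb hyw
      exfalso
      have h1 : Nat.lor U (Nat.lor s.b s.w) = Nat.lor s.b s.w := eq_of_beq hcond
      have h2 : y ∈ dec off (Nat.lor U (Nat.lor s.b s.w)) := by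
        rw [dec_lor, Finset.mem_union]; exact Or.inl hyU
      have h3 : dec off (Nat.lor U (Nat.lor s.b s.w)) = dec off (Nat.lor s.b s.w) :=
        congrArg _ h1
      have h4 : y ∈ dec off (Nat.lor s.b s.w) := h3 ▸ h2
      rcases Finset.mem_union.1 ((dec_lor (off := off)) ▸ h4) with h | h
      · exact hyb h
      · exact hyw h
  | succ n ih =>
    intro cw U st K C1 st' K' C1' hbK hwK h
    unfold loopH at h
    split at h
    · simp at h
    · rename_i cw1 s1 K1 U1 hgrp
      obtain ⟨g1, g2, g3, g4, g5, g6⟩ := addGrp_spec _ _ _ _ _ _ _ _ _ hI hbK hwK hgrp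
      split at h
      · simp at h
      · rename_i st1 K2 C12 hev
        obtain ⟨hK1, hC1, hV⟩ := hf _ _ _ _ _ _ _ g1
          (by rw [g2]; exact hbK.trans g3) g4 hev
        have hKK1 := g3.trans hK1
        obtain ⟨hK2, hC2, I, hIv, hcov⟩ := ih _ _ _ _ _ _ _ _
          (hbK.trans hKK1) (hwK.trans hKK1) h
        refine ⟨hKK1.trans hK2, hC1.trans hC2, dataV off v s1 K' C1' :: I, ?_, ?_⟩
        · intro D hD
          rw [List.mem_cons] at hD
          rcases hD with rfl | hD
          · exact validV2_mono hK2 hC2 hV
          · exact hIv D hD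
        · intro y hyU hyb hyw
          by_cases hyU1 : y ∈ dec off U1
          · obtain ⟨D, hD, hc⟩ := hcov y hyU1 hyb hyw
            exact ⟨D, List.mem_cons_of_mem _ hD, hc⟩
          · have hy1 : y ∈ dec off s1.w := g6 y hyU hyU1
            refine ⟨_, List.mem_cons_self, ?_⟩
            intro K'' C'' hK'' hC''
            have e : insert y (dec off s.w) \ dec off s1.w = ∅ := by
              rw [Finset.sdiff_eq_empty_iff_subset, Finset.insert_subset_iff]
              exact ⟨hy1, g5⟩
            unfold dataV
            refine ⟨?_, ?_, hK''.dec off, ?_⟩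
            · show dec off s1.b ⊆ _
              rw [g2]
            · show Disjoint (insert y (dec off s.w) \ dec off s1.w) _
              rw [e]
              exact Finset.disjoint_empty_left _
            · intro L hL hd
              show (L ∩ (insert y (dec off s.w) \ dec off s1.w)).card + _ ≤ _
              rw [e, Finset.inter_empty, Finset.card_empty, Nat.zero_add]
              exact (min_le_left _ _).trans (capV_mono hC'')

/-- soundness of the accumulating evaluator -/
theorem evH_sound {off : Cell} {gt : ℕ → Item} (hgt : ∀ i, ItemValid2 (gt i)) :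
    ∀ (n : ℕ) (v : Bool), HSpec off v (evH gt n v) := by
  intro n
  induction n with
  | zero =>
    intro v s st K C1 st' K' C1' hI hbK hwK h
    unfold evH at h
    simp at h
  | succ n ih =>
    intro v s st0 K C1 st' K' C1' hI hbK hwK h
    rcases st0 with _ | ⟨w0, st⟩
    · unfold evH at h
      simp at h
    unfold evH at h
    simp only at h
    rw [cond_eq_ite] at h
    split_ifs at h with htag3
    · -- QUIET
      set c := Nat.mod (Nat.shiftRight w0 2) 1024 with hc
      have hclt : c < 1024 := nat_lt_1024 _
      rw [cond_eq_ite] at h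
      split_ifs at h with hcond
      · simp only [Bool.and_eq_true] at hcond
        obtain ⟨hfree, h4⟩ := hcond
        obtain ⟨hin, hb, hw⟩ := isFree_spec hclt hfree
        have h4 := eq_of_beq h4
        have hI1 : Inv off (s.addB c) := hI.addB hin hw
        split at h
        · simp at h
        · rename_i wd1 st1 K1 C11 U1 hnull
          obtain ⟨hK1, hC1, I1, hI1v, hcov1⟩ := nullsH_sound hgt (ih true) hI1
            _ _ _ _ _ _ _ _ _ _ _ hnull
          have hcK : Sub (Nat.shiftLeft 1 c) K1 := hK1.of_lor_left.of_lor_right
          have hKK1 : Sub K K1 := hK1.of_lor_left.of_lor_left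
          have hbK1 : Sub (s.addB c).b K1 := (hbK.trans hKK1).lor hcK
          have hwK1 : Sub (s.addB c).w K1 := hwK.trans hKK1
          obtain ⟨hK2, hC2, I2, hI2v, hcov2⟩ := loopH_sound (off := off) (v := v) (ih v) hI1
            _ _ _ _ _ _ _ _ _ hbK1 hwK1 h
          refine ⟨hKK1.trans hK2, hC1.of_lor_left.trans hC2, ?_⟩
          have hwK2 := hwK1.trans hK2
          have hins : dec off (s.addB c).b = insert (cellOf off c) (dec off s.b) :=
            dec_insert hclt
          unfold dataV
          apply valid2_of_and (c := cellOf off c) (K' := dec off K') (cap' := capV off v C1')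
          · rw [cellOf_mem_dec hclt, hw]; simp
          · rw [cellOf_mem_dec hclt]; exact (hcK.trans hK2).bit
          · exact Finset.Subset.refl _
          · intro L _ _
            exact min_le_left _ _
          rw [← hins]
          show AndValid2 ⟨dec off (s.addB c).b, dec off (s.addB c).w, dec off K', capV off v C1'⟩
          apply andValid2_of_items' (hwK2.dec off) _ (I1 ++ I2)
          · intro D hD
            rw [List.mem_append] at hD
            rcases hD with hD | hD
            · exact hI1v D hD
            · exact hI2v D hD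
          · intro y hyb hyw
            obtain ⟨h1, h2⟩ := hcov1 y hyw
            by_cases hout : OnBoard off y
            · by_cases hyU : y ∈ dec off U1
              · obtain ⟨D, hD, hcv⟩ := hcov2 y hyU hyb hyw
                exact ⟨D, List.mem_append_right _ hD, hcv K' C1' (Sub.refl _) (Sub.refl _)⟩
              · rcases h1 hyU with h3 | ⟨D, hD, hcv⟩
                · exfalso
                  apply h3
                  obtain ⟨i, hi, rfl⟩ := hout
                  rw [cellOf_mem_dec hi]
                  exact fm_onBoard i hi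
                · exact ⟨D, List.mem_append_left _ hD, hcv K' C1' hK2 hC2⟩
            · obtain ⟨D, hD, hcv⟩ := h2 (by omega) hout
              exact ⟨D, List.mem_append_left _ hD, hcv K' C1' hK2 hC2⟩
          · exact checkV hI1 h4 (hK1.of_lor_right.trans hK2) (hC1.of_lor_right.trans hC2)
    rw [cond_eq_ite] at h
    split_ifs at h with htag0
    · -- LINE
      split at h
      · simp at h
      · rename_i K1 C11 C21 hev
        simp only [RG.ok.injEq] at h
        obtain ⟨-, rfl, rfl⟩ := h
        obtain ⟨hKK, hCC, -, hV⟩ := evF_sound2 (off := off) _ _ _ _ _ _ _ _ _ hI hbK hwK hev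
        refine ⟨hKK, hCC, ?_⟩
        unfold dataV
        apply hV.weaken (Finset.Subset.refl _)
        intro L _ _
        exact (min_le_left _ _).trans capV_le_cap3
    rw [cond_eq_ite] at h
    split_ifs at h with htag1
    · -- LEAF
      set it := gt (Nat.mod (Nat.shiftRight w0 2) 1048576) with hit
      set dx := Nat.mod (Nat.shiftRight (Nat.shiftRight w0 2) 20) 32 with hdx'
      set dy := Nat.mod (Nat.shiftRight (Nat.shiftRight w0 2) 25) 32 with hdy'
      obtain ⟨hg1, hg3, hval⟩ := hgt (Nat.mod (Nat.shiftRight w0 2) 1048576)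
      rw [← hit] at hg1 hg3 hval
      rw [cond_eq_ite] at h
      split_ifs at h with hg2
      · have hg2 : 2 ≤ it.g := Nat.le_of_ble_eq_true hg2
        rw [cond_eq_ite] at h
        split_ifs at h with hcond
        · simp only [RG.ok.injEq] at h
          obtain ⟨-, rfl, rfl⟩ := h
          simp only [Bool.and_eq_true] at hcond
          obtain ⟨hge, hf⟩ := hcond
          obtain ⟨hdx, hdy⟩ := geOK_spec hge
          have hf := fits2_spec hI hf
          set i := it.inst dx dy with hi
          set x := xs s i with hx
          have hKK : Sub K (Nat.lor (Nat.lor K i.K)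
            (cellsOf0 (mR0 x i))) := (sub_lor_left _ _).trans (sub_lor_left _ _)
          refine ⟨hKK, sub_lor_left _ _, ?_⟩
          unfold dataV
          apply valid2_of_item (hval off dx dy hdx hdy) hf.hB hf.hK
            (((sub_lor_right _ _).trans (sub_lor_left _ _)).dec off)
          intro L hL hd
          have hOK : InsOK it.g i := insOK_inst hg2 hg3
          obtain ⟨c0, c1, c2, c3⟩ := hf.cap hOK hL hd
          have hcapG : (it.data off dx dy).cap = capOf off i.C1 i.C2 it.g := by
            show capG off it.g _ _ = _
            unfold capG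
            rw [if_neg (by omega)]
          have hWW : (it.data off dx dy).W = dec off i.W := rfl
          rw [hcapG, hWW]
          show (L ∩ (dec off s.w \ dec off i.W)).card +
            ceff (dec off (Nat.lor (Nat.lor K i.K) (cellsOf0 (mR0 x i))))
              (capV off v (Nat.lor C1 (mR1 x i))) L ≤ _
          have hceff : ceff (dec off (Nat.lor (Nat.lor K i.K) (cellsOf0 (mR0 x i))))
              (capV off v (Nat.lor C1 (mR1 x i))) L ≤
              capV off v (Nat.lor C1 (mR1 x i)) L := min_le_left _ _
          by_cases d0 : capOf off i.C1 i.C2 it.g L ≤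
              (L ∩ (dec off s.w \ dec off i.W)).card
          · rw [ceff_zero (c1 d0) (sub_lor_right _ _)]
            omega
          by_cases d1 : capOf off i.C1 i.C2 it.g L ≤
              (L ∩ (dec off s.w \ dec off i.W)).card + 1
          · have := capV_le1 (off := off) (v := v) (C1 := Nat.lor C1 (mR1 x i))
              (L := L) (Or.inr ((sub_lor_right _ _).inMask (c2 d1)))
            omega
          · have := capV_le2 (off := off) (v := v)
              (C1 := Nat.lor C1 (mR1 x i)) (L := L)
            omega
      · have hg2' : it.g = 1 := by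
          have : ¬ 2 ≤ it.g := fun h => hg2 (Nat.ble_eq_true_of_le h)
          omega
        rw [cond_eq_ite] at h
        split_ifs at h with hcond
        · simp only [RG.ok.injEq] at h
          obtain ⟨-, rfl, rfl⟩ := h
          simp only [Bool.and_eq_true, Bool.not_eq_true'] at hcond
          obtain ⟨⟨⟨hge, hv⟩, hb⟩, hw⟩ := hcond
          obtain ⟨hdx, hdy⟩ := geOK_spec hge
          have hB := dec_sub_of_land (off := off) (eq_of_beq hb)
          have hW : dec off s.w ⊆ (it.data off dx dy).W :=
            dec_sub_of_lor (off := off) (eq_of_beq hw)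
          have hKK : Sub K (Nat.lor K (it.inst dx dy).K) := sub_lor_left _ _
          have e : dec off s.w \ (it.data off dx dy).W = ∅ := by
            rw [Finset.sdiff_eq_empty_iff_subset]
            exact hW
          refine ⟨hKK, Sub.refl _, ?_⟩
          unfold dataV
          apply valid2_of_item (hval off dx dy hdx hdy) hB (by
              rw [e]; exact Finset.disjoint_empty_left _)
            ((sub_lor_right _ _).dec off)
          intro L hL hd
          rw [e, Finset.inter_empty, Finset.card_empty, Nat.zero_add]
          have hcapG : (it.data off dx dy).cap = fun _ => 1 := by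
            show capG off it.g _ _ = _
            unfold capG
            rw [if_pos hg2']
          rw [hcapG]
          exact (min_le_left _ _).trans (capV_le1 (Or.inl hv))
    · -- FOUR
      set c := Nat.mod (Nat.shiftRight w0 2) 1024 with hc
      set t := Nat.mod (Nat.shiftRight (Nat.shiftRight w0 2) 10) 1024 with ht
      have hclt : c < 1024 := nat_lt_1024 _
      have htlt : t < 1024 := nat_lt_1024 _
      rw [cond_eq_ite] at h
      split_ifs at h with hcond
      · simp only [Bool.and_eq_true] at hcond
        obtain ⟨⟨⟨hf, hf2⟩, h5⟩, ha4⟩ := hcond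
        have ha4 := eq_of_beq ha4
        obtain ⟨hin, hb, hw⟩ := isFree_spec hclt hf
        obtain ⟨htin, htb, htw⟩ := isFree_spec htlt hf2
        obtain ⟨hl1, hl2⟩ := fiveOK_spec h5 off
        have hI1 : Inv off (s.addB c) := hI.addB hin hw
        have hI2 : Inv off ((s.addB c).addW t) := hI1.addW htin htb
        have hs1w : (s.addB c).w = s.w := rfl
        obtain ⟨hKK, hC1, hV⟩ := ih v _ _ _ _ _ _ _ hI2 (by
            show Sub (Nat.lor s.b (Nat.shiftLeft 1 c)) _
            apply Sub.lor
            · exact hbK.trans ((sub_lor_left _ _).trans (sub_lor_left _ _))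
            · exact (sub_lor_left _ _).trans ((sub_lor_right _ _).trans (sub_lor_left _ _)))
          (by
            show Sub (Nat.lor s.w (Nat.shiftLeft 1 t)) _
            apply Sub.lor
            · exact hwK.trans ((sub_lor_left _ _).trans (sub_lor_left _ _))
            · exact (sub_lor_right _ _).trans ((sub_lor_right _ _).trans (sub_lor_left _ _))) h
        have hKc := hKK.of_lor_left.of_lor_right.of_lor_left
        have hKt := hKK.of_lor_left.of_lor_right.of_lor_right
        have hKK0 := hKK.of_lor_left.of_lor_left
        have hK3 := hKK.of_lor_right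
        refine ⟨hKK0, hC1.of_lor_left, ?_⟩
        unfold dataV
        apply valid2_of_and (c := cellOf off c) (K' := dec off K') (cap' := capV off v C1')
        · rw [cellOf_mem_dec hclt, hw]; simp
        · rw [cellOf_mem_dec hclt]; exact hKc.bit
        · exact Finset.Subset.refl _
        · intro L _ _
          exact min_le_left _ _
        rw [← dec_insert hclt]
        apply andValid2_four (t := cellOf off t) (K' := dec off K') (cap' := capV off v C1')
        · apply Sub.dec
          exact hwK.trans hKK0
        · rw [cellOf_mem_dec htlt]; rw [hs1w] at htw; rw [htw]; simp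
        · rw [cellOf_mem_dec htlt]; exact hKt.bit
        · refine ⟨_, hl1, ?_⟩
          rw [← dec_insert htlt]
          exact hl2
        · exact checkV hI1 ha4 hK3 hC1.of_lor_right
        · exact Finset.Subset.refl _
        · intro L _ _
          exact min_le_left _ _
        · have e : insert (cellOf off t) (dec off s.w) = dec off ((s.addB c).addW t).w := by
            show _ = dec off (Nat.lor s.w (Nat.shiftLeft 1 t))
            rw [dec_insert htlt]
          rw [e]
          exact hV

end Pool.Agent.Gomoku
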