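import Pool.Agent.Helper47.Gomoku.EvalG

set_option autoImplicit false

namespace Pool.Agent.Gomoku

/-! # The evaluators for the second semantics -/

/-- the state without white stones -/
def strip (s : St) : St := ⟨s.b, 0, s.lv, 0, 0, 0, 0⟩

/-- add the white stones `X` -/
def xst : ℕ → ℕ → St → St
  | 0, _, t => t
  | n+1, X, t => cond (Nat.beq X 0) t
      (let c := Nat.log2 X
       xst n (Nat.xor X (Nat.shiftLeft 1 c)) (t.addW c))

/-- the state whose white stones are those of `s` outside `i.W` -/
def xs (s : St) (i : Ins) : St :=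
  cond (Nat.beq (Nat.land s.w i.W) 0) s (xst 40 (minus s.w i.W) (strip s))

/-- the instance fits; `x = xs s i` -/
def fits2 (s x : St) (i : Ins) : Bool :=
  let X0 := minus s.w i.W
  (Nat.beq x.w X0) && (Nat.beq (Nat.land s.b i.B) i.B) && (Nat.beq (Nat.land X0 i.K) 0) &&
    (Nat.beq (Nat.lor (Nat.land i.C1 x.a2) (Nat.land i.C2 x.a3)) 0) && (Nat.beq x.a4 0)

/-- the code for an inline subtree as null -/
def INL2 : ℕ := 1048574

/-- null items of an AND node. `v`: level 2, otherwise level 1; `f`: the evaluator at level 2 -/
def nullsH (gt : ℕ → Item) (v : Bool) (f : St → List ℕ → ℕ → ℕ → RG) :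
    ℕ → ℕ → St → List ℕ → ℕ → ℕ → ℕ → RN
  | 0, wd, _, st, K, C1, U => RN.ok wd st K C1 U
  | m+1, wd, s, st, K, C1, U =>
    let idx := Nat.mod wd 1048576
    cond (Nat.ble INL2 idx)
      (cond (Nat.beq idx INL)
        (match st with
          | [] => RN.bad
          | w0 :: st' =>
            match evF (Nat.mod w0 16) (Nat.shiftRight w0 4) s (Nat.lor s.b s.w) 0 0 with
            | R3.bad => RN.bad
            | R3.ok Kv C1v C2v =>
              nullsH gt v f m (Nat.shiftRight wd 30) s st'
                (Nat.lor (Nat.lor K Kv) (cellsOf0 C1v)) (Nat.lor C1 C2v) (Nat.land U Kv))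
        (cond v RN.bad
          (match f s st (Nat.lor s.b s.w) 0 with
            | RG.bad => RN.bad
            | RG.ok st' Kv C1v =>
              nullsH gt v f m (Nat.shiftRight wd 30) s st'
                (Nat.lor (Nat.lor K Kv) (cellsOf0 C1v)) C1 (Nat.land U Kv))))
      (let it := gt idx
       let dx := Nat.mod (Nat.shiftRight wd 20) 32
       let dy := Nat.mod (Nat.shiftRight wd 25) 32
       let i := it.inst dx dy
       let x := xs s i
       cond ((geOK it dx dy) && (fits2 s x i) &&
          (cond v (Nat.beq it.g 3) (Nat.ble 2 it.g)))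
        (nullsH gt v f m (Nat.shiftRight wd 30) s st
          (Nat.lor (Nat.lor K i.K) (cellsOf0 (mR1 x i))) (Nat.lor C1 (mR2 x i))
          (Nat.land U (Nat.lor i.K (cellsOf0 (mR0 x i)))))
        RN.bad)

/-- result of placing a group of white stones -/
inductive RY
  | bad : RY
  | ok (cw : ℕ) (s : St) (K U : ℕ) : RY

def addGrp : ℕ → ℕ → St → ℕ → ℕ → RY
  | 0, cw, s, K, U => RY.ok cw s K U
  | n+1, cw, s, K, U =>
    let y := Nat.mod cw 1024
    let yb := Nat.shiftLeft 1 y
    cond (isFree s y)
      (addGrp n (Nat.shiftRight cw 10) (s.addW y) (Nat.lor K yb) (minus U yb)) RY.bad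

def loopH (f : St → List ℕ → ℕ → ℕ → RG) : ℕ → ℕ → ℕ → St → List ℕ → ℕ → ℕ → RG
  | 0, _, U, s, st, K, C1 =>
    let bw := Nat.lor s.b s.w
    cond (Nat.beq (Nat.lor U bw) bw) (RG.ok st K C1) RG.bad
  | n+1, cw, U, s, st, K, C1 =>
    match addGrp (Nat.mod cw 16) (Nat.shiftRight cw 4) s K U with
      | RY.bad => RG.bad
      | RY.ok cw' s' K1 U' =>
        match f s' st K1 C1 with
          | RG.bad => RG.bad
          | RG.ok st' K' C1' => loopH f n cw' U' s st' K' C1'

/-- accumulating evaluator -/
def evH (gt : ℕ → Item) : ℕ → Bool → St → List ℕ → ℕ → ℕ → RG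
  | 0, _, _, _, _, _ => RG.bad
  | _+1, _, _, [], _, _ => RG.bad
  | n+1, v, s, w0 :: st, K, C1 =>
      let tag := Nat.mod w0 4
      let wd := Nat.shiftRight w0 2
      cond (Nat.beq tag 3)
        (let c := Nat.mod wd 1024
         let m := Nat.mod (Nat.shiftRight wd 10) 64
         let nn := Nat.mod (Nat.shiftRight wd 16) 256
         let s1 := s.addB c
         cond ((isFree s c) && (Nat.beq s1.a4 0))
          (match nullsH gt v (evH gt n true) (Nat.succ m) (Nat.shiftRight wd 24) s1 st
              (Nat.lor (Nat.lor K (Nat.shiftLeft 1 c)) (cellsOf0 s1.a3)) (Nat.lor C1 s1.a2) FM with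
            | RN.bad => RG.bad
            | RN.ok wd' st' K' C1' U => loopH (evH gt n v) nn wd' U s1 st' K' C1')
          RG.bad)
        (cond (Nat.beq tag 0)
          (match evF (Nat.mod wd 16) (Nat.shiftRight wd 4) s K C1 0 with
            | R3.bad => RG.bad
            | R3.ok K' C1' _ => RG.ok st K' C1')
          (cond (Nat.beq tag 1)
            (let it := gt (Nat.mod wd 1048576)
             let dx := Nat.mod (Nat.shiftRight wd 20) 32
             let dy := Nat.mod (Nat.shiftRight wd 25) 32
             let i := it.inst dx dy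
             cond (Nat.ble 2 it.g)
               (let x := xs s i
                cond ((geOK it dx dy) && (fits2 s x i))
                 (RG.ok st (Nat.lor (Nat.lor K i.K) (cellsOf0 (mR0 x i)))
                   (Nat.lor C1 (mR1 x i))) RG.bad)
               (cond ((geOK it dx dy) && (!v) && (Nat.beq (Nat.land s.b i.B) i.B) &&
                  (Nat.beq (Nat.lor s.w i.W) i.W))
                 (RG.ok st (Nat.lor K i.K) C1) RG.bad))
            (let c := Nat.mod wd 1024
             let t := Nat.mod (Nat.shiftRight wd 10) 1024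
             let k := Nat.mod (Nat.shiftRight wd 20) 4096
             let s1 := s.addB c
             let tb := Nat.shiftLeft 1 t
             cond ((isFree s c) && (isFree s1 t) && (fiveOK (Nat.lor s1.b tb) k) &&
                (Nat.beq s1.a4 0))
              (evH gt n v (s1.addW t) st
                (Nat.lor (Nat.lor K (Nat.lor (Nat.shiftLeft 1 c) tb)) (cellsOf0 s1.a3))
                (Nat.lor C1 s1.a2)) RG.bad)))

/-! ### The plain evaluator -/

def nullsQ (gt : ℕ → Item) (f : St → List ℕ → ℕ → ℕ → RG) : ℕ → ℕ → St → List ℕ → ℕ → RQ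
  | 0, wd, _, st, U => RQ.ok wd st U
  | m+1, wd, s, st, U =>
    let idx := Nat.mod wd 1048576
    cond (Nat.ble INL2 idx)
      (cond (Nat.beq idx INL)
        (match st with
          | [] => RQ.bad
          | w0 :: st' =>
            match evF (Nat.mod w0 16) (Nat.shiftRight w0 4) s (Nat.lor s.b s.w) 0 0 with
            | R3.bad => RQ.bad
            | R3.ok Kv _ _ => nullsQ gt f m (Nat.shiftRight wd 30) s st' (Nat.land U Kv))
        (match f s st (Nat.lor s.b s.w) 0 with
          | RG.bad => RQ.bad
          | RG.ok st' Kv _ => nullsQ gt f m (Nat.shiftRight wd 30) s st' (Nat.land U Kv)))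
      (let it := gt idx
       let dx := Nat.mod (Nat.shiftRight wd 20) 32
       let dy := Nat.mod (Nat.shiftRight wd 25) 32
       let i := it.inst dx dy
       cond (Nat.ble 2 it.g)
        (let x := xs s i
         cond ((geOK it dx dy) && (fits2 s x i))
          (nullsQ gt f m (Nat.shiftRight wd 30) s st
            (Nat.land U (Nat.lor i.K (cellsOf0 (mR0 x i)))))
          RQ.bad)
        (let X0 := minus s.w i.W
         cond ((geOK it dx dy) && (Nat.beq (Nat.land s.b i.B) i.B) &&
            (Nat.beq (Nat.land X0 i.K) 0) && (single X0))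
          (nullsQ gt f m (Nat.shiftRight wd 30) s st
            (Nat.land U (Nat.lor i.K
              (cond (Nat.beq X0 0) 0 (cellsOf0 (Nat.land (WT (Nat.log2 X0)) s.lv))))))
          RQ.bad))

def loopQ (f : St → List ℕ → RP) : ℕ → ℕ → ℕ → St → List ℕ → RP
  | 0, _, U, s, st =>
    let bw := Nat.lor s.b s.w
    cond (Nat.beq (Nat.lor U bw) bw) (RP.ok st) RP.bad
  | n+1, cw, U, s, st =>
    match addGrp (Nat.mod cw 16) (Nat.shiftRight cw 4) s 0 U with
      | RY.bad => RP.bad
      | RY.ok cw' s' _ U' =>
        match f s' st with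
          | RP.bad => RP.bad
          | RP.ok st' => loopQ f n cw' U' s st'

/-- plain evaluator: Black to move. `gp`: library of plain positions (black, white) that are
already known to be won. -/
def evQ (gt : ℕ → Item) (gp : ℕ → ℕ × ℕ) : ℕ → St → List ℕ → RP
  | 0, _, _ => RP.bad
  | _+1, _, [] => RP.bad
  | n+1, s, w0 :: st =>
      let tag := Nat.mod w0 4
      let wd := Nat.shiftRight w0 2
      cond (Nat.beq tag 3)
        (let c := Nat.mod wd 1024
         let m := Nat.mod (Nat.shiftRight wd 10) 64
         let nn := Nat.mod (Nat.shiftRight wd 16) 256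
         let s1 := s.addB c
         cond ((isFree s c) && (Nat.beq s1.a4 0))
          (match nullsQ gt (evH gt n true) (Nat.succ m) (Nat.shiftRight wd 24) s1 st FM with
            | RQ.bad => RP.bad
            | RQ.ok wd' st' U => loopQ (evQ gt gp n) nn wd' U s1 st')
          RP.bad)
        (cond (Nat.beq tag 0)
          (match evF (Nat.mod wd 16) (Nat.shiftRight wd 4) s (Nat.lor s.b s.w) 0 0 with
            | R3.bad => RP.bad
            | R3.ok _ _ _ => RP.ok st)
          (cond (Nat.beq tag 1)
            (let idx := Nat.mod wd 1048576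
             cond (Nat.ble 524288 idx)
              (let pr := gp (Nat.sub idx 524288)
               cond ((Nat.beq (Nat.land s.b pr.1) pr.1) && (Nat.beq (Nat.lor s.w pr.2) pr.2))
                 (RP.ok st) RP.bad)
              (let it := gt idx
               let dx := Nat.mod (Nat.shiftRight wd 20) 32
               let dy := Nat.mod (Nat.shiftRight wd 25) 32
               let i := it.inst dx dy
               cond (Nat.ble 2 it.g)
                 (cond ((geOK it dx dy) && (fits2 s (xs s i) i)) (RP.ok st) RP.bad)
                 (let X0 := minus s.w i.W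
                  cond ((geOK it dx dy) && (Nat.beq (Nat.land s.b i.B) i.B) &&
                    (Nat.beq (Nat.land X0 i.K) 0) && (single X0))
                   (RP.ok st) RP.bad)))
            (let c := Nat.mod wd 1024
             let t := Nat.mod (Nat.shiftRight wd 10) 1024
             let k := Nat.mod (Nat.shiftRight wd 20) 4096
             let s1 := s.addB c
             let tb := Nat.shiftLeft 1 t
             cond ((isFree s c) && (isFree s1 t) && (fiveOK (Nat.lor s1.b tb) k) &&
                (Nat.beq s1.a4 0))
              (evQ gt gp n (s1.addW t) st) RP.bad)))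

/-! ### The G node -/

/-- explicit replies of the G node; the children are evaluated at level 2 -/
def loopJ2 (gt : ℕ → Item) (fuel : ℕ) : ℕ → ℕ → ℕ → St → List ℕ → ℕ → RG
  | 0, _, U, s, st, K =>
    let bw := Nat.lor s.b s.w
    cond (Nat.beq (Nat.lor U bw) bw) (RG.ok st K 0) RG.bad
  | n+1, cw, U, s, st, K =>
    let y := Nat.mod cw 1024
    cond (isFree s y)
      (match evH gt fuel true (s.addW y) st (Nat.lor K (Nat.shiftLeft 1 y)) 0 with
        | RG.bad => RG.bad
        | RG.ok st' K' C1' =>
          loopJ2 gt fuel n (Nat.shiftRight cw 10) (minus U (Nat.shiftLeft 1 y)) s st'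
            (Nat.lor K' (cellsOf0 (minus C1' (WT y)))))
      RG.bad

/-- the G node: `w0` packs m (6 bits), number of replies (8 bits), null descriptors (30 bits each),
replies (10 bits each) -/
def evJ2 (gt : ℕ → Item) (fuel : ℕ) (s : St) (w0 : ℕ) (st : List ℕ) : RG :=
  cond (Nat.beq s.w 0)
    (match nullsH gt false (evH gt fuel true) (Nat.succ (Nat.mod w0 64))
        (Nat.shiftRight w0 14) s st s.b 0 FM with
      | RN.bad => RG.bad
      | RN.ok wd' st' K' _ U =>
        loopJ2 gt fuel (Nat.mod (Nat.shiftRight w0 6) 256) wd' U s st' K')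
    RG.bad

end Pool.Agent.Gomoku
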