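import Pool.Agent.Helper47.Gomoku.ItemCheckSound
import Pool.Agent.Helper47.Gom2.EvHSound

set_option autoImplicit false

namespace Pool.Agent.Gomoku

open Finset

/-- the check of an item: evaluation at the translation `(dx, dy)` -/
def chkItem2 (gt : ℕ → Item) (fuel : ℕ) (it : Item) (dx dy hd : ℕ) (cert : List ℕ) : Bool :=
  (geOK it dx dy) && (boxOK it) &&
    (match initSt hd with
      | RS.bad => false
      | RS.ok _ s =>
        let i := it.inst dx dy
        (Nat.beq s.b i.B) && (Nat.beq s.w i.W) &&
        (cond (Nat.beq it.g 3)
          (match cert with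
            | [] => false
            | w0 :: _ =>
              match evF (Nat.mod w0 16) (Nat.shiftRight w0 4) s (Nat.lor s.b s.w) 0 0 with
              | R3.bad => false
              | R3.ok K C1 C2 => (subB K i.K) && (subB C1 i.C1) && (subB C2 i.C2))
          (cond (Nat.beq it.g 2)
            (match evH gt fuel true s cert (Nat.lor s.b s.w) 0 with
              | RG.bad => false
              | RG.ok _ K C1 => (subB K i.K) && (subB C1 i.C1))
            ((Nat.beq it.g 1) &&
              (match evH gt fuel false s cert (Nat.lor s.b s.w) 0 with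
                | RG.bad => false
                | RG.ok _ K _ => subB K i.K)))))

theorem itemValid2_of_chk' {gt : ℕ → Item} {fuel : ℕ} {it : Item}
    (hgt : it.g = 3 ∨ ∀ i, ItemValid2 (gt i))
    {dx dy hd : ℕ} {cert : List ℕ} (h : chkItem2 gt fuel it dx dy hd cert = true) :
    ItemValid2 it := by
  unfold chkItem2 at h
  simp only [Bool.and_eq_true] at h
  obtain ⟨⟨hge, hbox⟩, h⟩ := h
  obtain ⟨hdx, hdy⟩ := geOK_spec hge
  split at h
  · simp at h
  · rename_i wd s hinit
    simp only [Bool.and_eq_true] at h
    obtain ⟨⟨hb, hw⟩, h⟩ := h
    have hb := eq_of_beq hb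
    have hw := eq_of_beq hw
    -- enough: validity at (dx, dy) for every offset
    have main : (1 ≤ it.g ∧ it.g ≤ 3) → (∀ off : Cell, Valid2 (it.data off dx dy)) →
        ItemValid2 it := by
      rintro ⟨hg1, hg3⟩ hv
      refine ⟨hg1, hg3, fun off dx' dy' hdx' hdy' => ?_⟩
      have e1 := data_norm hbox hg1 hg3 (off := off) hdx' hdy'
      have e2 := data_norm hbox hg1 hg3 (off := (off.1 + dx' - dx, off.2 + dy' - dy)) hdx hdy
      have e3 : ((off.1 + dx' - dx : ℤ) + dx, (off.2 + dy' - dy : ℤ) + dy) =
          (off.1 + dx', off.2 + dy') := by
        ext <;> simp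
      simp only at e2
      rw [e3] at e2
      rw [e1, ← e2]
      exact hv _
    rw [cond_eq_ite] at h
    split_ifs at h with h3
    · -- g = 3
      have h3 := eq_of_beq h3
      apply main ⟨by omega, by omega⟩
      intro off
      split at h
      · simp at h
      · rename_i w0 tl
        split at h
        · simp at h
        · rename_i K C1 C2 hev
          simp only [Bool.and_eq_true] at h
          obtain ⟨⟨hK, hC1⟩, hC2⟩ := h
          have hI : Inv off s := initSt_inv hinit
          obtain ⟨-, -, -, hV⟩ := evF_sound2 (off := off) _ _ _ _ _ _ _ _ _ hI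
            (sub_lor_left _ _) (sub_lor_right _ _) hev
          have hK := subB_spec hK
          have hC1 := subB_spec hC1
          have hC2 := subB_spec hC2
          have hV2 : Valid2 ⟨dec off s.b, dec off s.w, dec off (it.inst dx dy).K,
              capOf off (it.inst dx dy).C1 (it.inst dx dy).C2 3⟩ := by
            apply hV.weaken (hK.dec off)
            intro L _ _
            refine (min_le_left _ _).trans ?_
            by_cases d1 : InMask off C1 L
            · rw [capOf_le_of_c1 (hC1.inMask d1), capOf_le_of_c1 d1]
            · by_cases d2 : InMask off C2 L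
              · have h5 : capOf off C1 C2 3 L = 2 := by
                  unfold capOf
                  rw [if_neg d1, if_pos d2]
                rw [h5]
                exact capOf_le_of_c2 (hC2.inMask d2)
              · have h5 : capOf off C1 C2 3 L = 3 := by
                  unfold capOf
                  rw [if_neg d1, if_neg d2]
                rw [h5]
                exact capOf_le3
          unfold Item.data capG
          simp only
          rw [if_neg (by omega), h3, ← hb, ← hw]
          exact hV2
    rw [cond_eq_ite] at h
    split_ifs at h with h2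
    · -- g = 2
      have h2 := eq_of_beq h2
      have hgt : ∀ i, ItemValid2 (gt i) := hgt.resolve_left (by omega)
      apply main ⟨by omega, by omega⟩
      intro off
      split at h
      · simp at h
      · rename_i st K C1 hev
        simp only [Bool.and_eq_true] at h
        obtain ⟨hK, hC1⟩ := h
        have hI : Inv off s := initSt_inv hinit
        obtain ⟨-, -, hV⟩ := evH_sound (off := off) hgt _ _ _ _ _ _ _ _ _ hI
          (sub_lor_left _ _) (sub_lor_right _ _) hev
        have hV2 := validV2_mono (subB_spec hK) (subB_spec hC1) hV
        unfold dataV at hV2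
        unfold Item.data capG
        simp only
        rw [if_neg (by omega), h2, ← hb, ← hw]
        apply hV2.weaken (Finset.Subset.refl _)
        intro L _ _
        refine (min_le_left _ _).trans ?_
        unfold capV
        rw [if_pos rfl]
        by_cases d1 : InMask off (it.inst dx dy).C1 L
        · rw [capOf_le_of_c1 d1, capOf_le_of_c1 d1]
        · have : 2 ≤ capOf off (it.inst dx dy).C1 0 2 L := by
            unfold capOf
            rw [if_neg d1]
            split_ifs <;> omega
          exact capOf_le_g2.trans this
    · -- g = 1
      simp only [Bool.and_eq_true] at h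
      obtain ⟨h1, h⟩ := h
      have h1 := eq_of_beq h1
      have hgt : ∀ i, ItemValid2 (gt i) := hgt.resolve_left (by omega)
      apply main ⟨by omega, by omega⟩
      intro off
      split at h
      · simp at h
      · rename_i st K C1 hev
        have hI : Inv off s := initSt_inv hinit
        obtain ⟨-, -, hV⟩ := evH_sound (off := off) hgt _ _ _ _ _ _ _ _ _ hI
          (sub_lor_left _ _) (sub_lor_right _ _) hev
        have hV2 := validV2_mono (subB_spec h) (Sub.refl _) hV
        unfold dataV capV at hV2
        unfold Item.data capG
        simp only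
        rw [if_pos h1, ← hb, ← hw]
        simpa using hV2


theorem itemValid2_of_chk {gt : ℕ → Item} (hgt : ∀ i, ItemValid2 (gt i)) {fuel : ℕ} {it : Item}
    {dx dy hd : ℕ} {cert : List ℕ} (h : chkItem2 gt fuel it dx dy hd cert = true) :
    ItemValid2 it := itemValid2_of_chk' (Or.inr hgt) h

def CTb.all2 (gt : ℕ → Item) (fuel : ℕ) : CTb → Bool
  | .leaf it dx dy hd cert => chkItem2 gt fuel it dx dy hd cert
  | .node l r => (l.all2 gt fuel) && (r.all2 gt fuel)

/-- every entry of the table is valid -/
def CTb.Good2 (t : CTb) : Prop := ∀ i, ItemValid2 (t.get i)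

theorem CTb.Good2.node {l r : CTb} (hl : l.Good2) (hr : r.Good2) : (CTb.node l r).Good2 := by
  intro i
  unfold CTb.get
  rw [cond_eq_ite]
  split_ifs
  · exact hl _
  · exact hr _

theorem CTb.valid2 {gt : ℕ → Item} (hgt : ∀ i, ItemValid2 (gt i)) {fuel : ℕ} {t : CTb}
    (h : t.all2 gt fuel = true) : t.Good2 := by
  induction t with
  | leaf it dx dy hd cert =>
    intro i
    exact itemValid2_of_chk hgt h
  | node l r ihl ihr =>
    unfold CTb.all2 at h
    rw [Bool.and_eq_true] at h
    exact CTb.Good2.node (ihl h.1) (ihr h.2)

theorem CTb.good2_of {t : CTb} (g : CTb) (hg : g.Good2) (fuel : ℕ)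
    (h : t.all2 g.get fuel = true) : t.Good2 := CTb.valid2 hg h

/-- the four in a row `X X X X .` -/
def dumI : Item := ⟨0xf000000000000000000000000000000000000, 0,
  0x1f000000000000000000000000000000000000, 0, 0, 3, 0, 0⟩

def dumT : CTb := .leaf dumI 0 0 (Nat.lor 4 (Nat.shiftLeft (Nat.add 144 (Nat.add
  (Nat.shiftLeft 145 10) (Nat.add (Nat.shiftLeft 146 20) (Nat.shiftLeft 147 30)))) 8))
  [Nat.shiftLeft (Nat.add 148 (Nat.shiftLeft 144 10)) 4]

theorem dumT_all : dumT.all2 (fun _ => dumI) 1 = true := by decide +kernel

theorem dumT_good : dumT.Good2 := by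
  intro i
  have h := dumT_all
  unfold dumT CTb.all2 at h
  exact itemValid2_of_chk' (Or.inl rfl) h

end Pool.Agent.Gomoku
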