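import Pool.Agent.Helper47.Gomoku.Far

set_option autoImplicit false

namespace Pool.Agent.Gomoku

open Finset

/-! # Second semantics: contexts as real positions

The data `D = (B, W, K, cap)` is applied to a real position `(b, w)`: `b` contains `B`, the white
stones outside `W` avoid `K` and respect the caps in the live windows. White stones of `W` may be
missing in `w`, and additional black stones may lie anywhere. -/

def CapOK (cap : Finset Cell → ℕ) (X b : Finset Cell) : Prop :=
  ∀ L, IsLine L → Disjoint L b → (L ∩ X).card ≤ cap L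

def CapOKP (cap : Finset Cell → ℕ) (X b : Finset Cell) (p q : Cell) : Prop :=
  ∀ L, IsLine L → Disjoint L b → ¬ (p ∈ L ∧ q ∈ L) → (L ∩ X).card ≤ cap L

/-- the context condition -/
def Ctx (B W K : Finset Cell) (cap : Finset Cell → ℕ) (b w : Finset Cell) :
    Option (Cell × Cell) → Prop
  | none => B ⊆ b ∧ Disjoint b w ∧ Disjoint (w \ W) K ∧ CapOK cap (w \ W) b
  | some (p, q) => (p ≠ q ∧ p ∉ K ∧ q ∉ K ∧ p ∉ w ∧ q ∉ w ∧ p ∉ b ∧ q ∉ b) ∧
      B ⊆ b ∧ Disjoint b w ∧ Disjoint (w \ W) K ∧ CapOKP cap (w \ W) b p q ∧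
      CapOK cap (insert p w \ W) (insert q b) ∧ CapOK cap (insert q w \ W) (insert p b)

def Valid2 (D : Data) : Prop :=
  ∃ n, ∀ b w P, Ctx D.B D.W D.K D.cap b w P → Win n b w

def AndValid2 (D : Data) : Prop :=
  ∃ n, ∀ b w P, Ctx D.B D.W D.K D.cap b w P → AndWin n b w

section
variable {B W K : Finset Cell} {cap : Finset Cell → ℕ} {b w : Finset Cell}
  {P : Option (Cell × Cell)}

theorem Ctx.hB (h : Ctx B W K cap b w P) : B ⊆ b := by
  rcases P with _ | ⟨p, q⟩
  · exact h.1
  · exact h.2.1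

theorem Ctx.hbw (h : Ctx B W K cap b w P) : Disjoint b w := by
  rcases P with _ | ⟨p, q⟩
  · exact h.2.1
  · exact h.2.2.1

theorem Ctx.hK (h : Ctx B W K cap b w P) : Disjoint (w \ W) K := by
  rcases P with _ | ⟨p, q⟩
  · exact h.2.2.1
  · exact h.2.2.2.1

theorem Ctx.resolve1 {p q : Cell} (h : Ctx B W K cap b w (some (p, q))) :
    Ctx B W K cap (insert q b) (insert p w) none := by
  obtain ⟨⟨hpq, hpK, hqK, hpw, hqw, hpb, hqb⟩, hB, hbw, hK, -, h1, -⟩ := h
  refine ⟨hB.trans (Finset.subset_insert _ _), ?_, ?_, h1⟩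
  · rw [Finset.disjoint_left]
    intro c hc hc'
    rw [Finset.mem_insert] at hc hc'
    rcases hc with rfl | hc <;> rcases hc' with h2 | hc'
    · exact hpq h2.symm
    · exact hqw hc'
    · exact hpb (h2 ▸ hc)
    · exact Finset.disjoint_left.1 hbw hc hc'
  · rw [Finset.disjoint_left] at hK ⊢
    intro c hc
    rw [Finset.mem_sdiff, Finset.mem_insert] at hc
    rcases hc with ⟨rfl | hc, hcW⟩
    · exact hpK
    · exact hK (Finset.mem_sdiff.2 ⟨hc, hcW⟩)

theorem Ctx.resolve2 {p q : Cell} (h : Ctx B W K cap b w (some (p, q))) :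
    Ctx B W K cap (insert p b) (insert q w) none := by
  obtain ⟨⟨hpq, hpK, hqK, hpw, hqw, hpb, hqb⟩, hB, hbw, hK, -, -, h1⟩ := h
  refine ⟨hB.trans (Finset.subset_insert _ _), ?_, ?_, h1⟩
  · rw [Finset.disjoint_left]
    intro c hc hc'
    rw [Finset.mem_insert] at hc hc'
    rcases hc with rfl | hc <;> rcases hc' with h2 | hc'
    · exact hpq h2
    · exact hpw hc'
    · exact hqb (h2 ▸ hc)
    · exact Finset.disjoint_left.1 hbw hc hc'
  · rw [Finset.disjoint_left] at hK ⊢
    intro c hc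
    rw [Finset.mem_sdiff, Finset.mem_insert] at hc
    rcases hc with ⟨rfl | hc, hcW⟩
    · exact hqK
    · exact hK (Finset.mem_sdiff.2 ⟨hc, hcW⟩)

/-- Transfer of a context to other data, with additional black stones `Z` and additional
white stones `Q`. -/
theorem Ctx.transfer (h : Ctx B W K cap b w P)
    {B' W' K' Z Q : Finset Cell} {cap' : Finset Cell → ℕ}
    (hB : B' ⊆ b ∪ Z) (hK : K' ⊆ K)
    (hZw : Disjoint Z w) (hZQ : Disjoint Z Q) (hbQ : Disjoint b Q)
    (hA : Disjoint ((W ∪ Q) \ W') K')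
    (hPZ : ∀ p q, P = some (p, q) → (p ∉ Z ∧ q ∉ Z) ∧ (p ∉ Q ∧ q ∉ Q))
    (hcap : ∀ L, IsLine L → Disjoint L (b ∪ Z) →
      (L ∩ ((W ∪ Q) \ W')).card + ceff K cap L ≤ cap' L) :
    Ctx B' W' K' cap' (b ∪ Z) (w ∪ Q) P := by
  have sub : ∀ w1 : Finset Cell, (w1 ∪ Q) \ W' ⊆ ((W ∪ Q) \ W') ∪ (w1 \ W) := by
    intro w1 c hc
    rw [Finset.mem_sdiff, Finset.mem_union] at hc
    rw [Finset.mem_union, Finset.mem_sdiff, Finset.mem_union, Finset.mem_sdiff]
    by_cases hcW : c ∈ W
    · exact Or.inl ⟨Or.inl hcW, hc.2⟩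
    · rcases hc.1 with h1 | h1
      · exact Or.inr ⟨h1, hcW⟩
      · exact Or.inl ⟨Or.inr h1, hc.2⟩
  have key : ∀ b1 w1 : Finset Cell, b ∪ Z ⊆ b1 → Disjoint (w1 \ W) K → ∀ L, IsLine L →
      Disjoint L b1 → (L ∩ (w1 \ W)).card ≤ cap L →
      (L ∩ ((w1 ∪ Q) \ W')).card ≤ cap' L := by
    intro b1 w1 hb1 hX1 L hL hd hc
    have h0 : (L ∩ ((w1 ∪ Q) \ W')).card ≤ (L ∩ (((W ∪ Q) \ W') ∪ (w1 \ W))).card :=
      Finset.card_le_card (Finset.inter_subset_inter_left (sub w1))
    have h1 := card_inter_union_le (L := L) (A := (W ∪ Q) \ W') (X := w1 \ W)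
    have h2 := card_inter_le_sdiff (L := L) hX1
    have h3 : (L ∩ (w1 \ W)).card ≤ ceff K cap L := le_min hc h2
    have h4 := hcap L hL (Finset.disjoint_of_subset_right hb1 hd)
    omega
  have hbw := h.hbw
  have hKK : Disjoint ((w ∪ Q) \ W') K' := by
    refine Finset.disjoint_of_subset_left (sub w) ?_
    rw [Finset.disjoint_union_left]
    exact ⟨hA, Finset.disjoint_of_subset_right hK h.hK⟩
  have hbw' : Disjoint (b ∪ Z) (w ∪ Q) := by
    rw [Finset.disjoint_union_left, Finset.disjoint_union_right, Finset.disjoint_union_right]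
    exact ⟨⟨hbw, hbQ⟩, ⟨hZw, hZQ⟩⟩
  rcases P with _ | ⟨p, q⟩
  · refine ⟨hB, hbw', hKK, ?_⟩
    intro L hL hd
    exact key (b ∪ Z) w (Finset.Subset.refl _) h.hK L hL hd
      (h.2.2.2 L hL (Finset.disjoint_of_subset_right Finset.subset_union_left hd))
  · have r1 := h.resolve1
    have r2 := h.resolve2
    obtain ⟨⟨hpZ, hqZ⟩, hpQ, hqQ⟩ := hPZ p q rfl
    obtain ⟨⟨hpq, hpK, hqK, hpw, hqw, hpb, hqb⟩, -, -, hXK, hP, h1, h2⟩ := h
    refine ⟨⟨hpq, fun hc => hpK (hK hc), fun hc => hqK (hK hc), ?_, ?_, ?_, ?_⟩, hB, hbw', hKK,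
      ?_, ?_, ?_⟩
    · rw [Finset.mem_union]; tauto
    · rw [Finset.mem_union]; tauto
    · rw [Finset.mem_union]; tauto
    · rw [Finset.mem_union]; tauto
    · intro L hL hd hn
      exact key (b ∪ Z) w (Finset.Subset.refl _) hXK L hL hd
        (hP L hL (Finset.disjoint_of_subset_right Finset.subset_union_left hd) hn)
    · intro L hL hd
      rw [← Finset.insert_union]
      refine key (insert q (b ∪ Z)) (insert p w) (Finset.subset_insert _ _) r1.hK L hL hd
        (h1 L hL ?_)
      refine Finset.disjoint_of_subset_right ?_ hd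
      exact Finset.insert_subset_insert _ Finset.subset_union_left
    · intro L hL hd
      rw [← Finset.insert_union]
      refine key (insert p (b ∪ Z)) (insert q w) (Finset.subset_insert _ _) r2.hK L hL hd
        (h2 L hL ?_)
      refine Finset.disjoint_of_subset_right ?_ hd
      exact Finset.insert_subset_insert _ Finset.subset_union_left

/-- no five for White after any reply -/
theorem Ctx.no_five (h : Ctx B W K cap b w P)
    (hchk : ∀ L, IsLine L → Disjoint L B → (L ∩ W).card + ceff K cap L ≤ 3)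
    {y : Cell} (hy : y ∉ b) : ¬ HasFive (insert y w) := by
  rintro ⟨L, hL, hLS⟩
  have hXK := h.hK
  have hbw := h.hbw
  have hd : Disjoint L b := by
    rw [Finset.disjoint_left]
    intro c hc hc'
    have h1 := hLS hc
    rw [Finset.mem_insert] at h1
    rcases h1 with rfl | h1
    · exact hy hc'
    · exact Finset.disjoint_left.1 hbw hc' h1
  have hc := hchk L hL (Finset.disjoint_of_subset_right h.hB hd)
  have h5 := hL.card
  have hle : L.card ≤ (L ∩ W).card + (L ∩ (w \ W)).card + 1 := by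
    have : L ⊆ insert y ((L ∩ W) ∪ (L ∩ (w \ W))) := by
      intro c hc
      have h1 := hLS hc
      simp only [Finset.mem_insert, Finset.mem_union, Finset.mem_inter, Finset.mem_sdiff] at h1 ⊢
      tauto
    calc L.card ≤ (insert y ((L ∩ W) ∪ (L ∩ (w \ W)))).card := Finset.card_le_card this
      _ ≤ ((L ∩ W) ∪ (L ∩ (w \ W))).card + 1 := Finset.card_insert_le _ _
      _ ≤ (L ∩ W).card + (L ∩ (w \ W)).card + 1 := by
        have := Finset.card_union_le (L ∩ W) (L ∩ (w \ W))
        omega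
  have h2 := card_inter_le_sdiff (L := L) hXK
  have hcapL : (L ∩ (w \ W)).card ≤ cap L := by
    rcases P with _ | ⟨p, q⟩
    · exact h.2.2.2 L hL hd
    · obtain ⟨⟨hpq, hpK, hqK, hpw, hqw, hpb, hqb⟩, -, -, -, hP, -, -⟩ := h
      apply hP L hL hd
      rintro ⟨hp, hq⟩
      have h1 := hLS hp
      have h1' := hLS hq
      rw [Finset.mem_insert] at h1 h1'
      rcases h1 with h1 | h1
      · rcases h1' with h1' | h1'
        · exact hpq (h1.trans h1'.symm)
        · exact hqw h1'
      · exact hpw h1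
  have h3 : (L ∩ (w \ W)).card ≤ ceff K cap L := le_min hcapL h2
  omega

end

/-- there is always a free cell, outside of any finite set -/
theorem exists_free (S : Finset Cell) : ∃ z : Cell, z ∉ S := Infinite.exists_notMem_finset S

/-- `D` covers the white reply `y` at the AND node `(B, W)` with result constraints `K, cap`. -/
def Covers2 (B W K : Finset Cell) (cap : Finset Cell → ℕ) (D : Data) (y : Cell) : Prop :=
  D.B ⊆ B ∧ Disjoint (insert y W \ D.W) D.K ∧ D.K ⊆ K ∧
  ∀ L, IsLine L → Disjoint L B → (L ∩ (insert y W \ D.W)).card + ceff K cap L ≤ D.cap L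

/-- Black has an immediate win at a cell `t ≠ y`. -/
def ImmWin2 (B W K : Finset Cell) (y : Cell) : Prop :=
  ∃ t, t ∈ K ∧ t ∉ W ∧ t ≠ y ∧ HasFive (insert t B)

theorem exists_bound2 (I : List Data) (hI : ∀ D ∈ I, Valid2 D) :
    ∃ n, ∀ D ∈ I, ∀ b w P, Ctx D.B D.W D.K D.cap b w P → Win n b w := by
  induction I with
  | nil => exact ⟨0, fun D hD => by simp at hD⟩
  | cons D I ih =>
    obtain ⟨n, hn⟩ := ih fun D' hD' => hI D' (by simp [hD'])
    obtain ⟨m, hm⟩ := hI D (by simp)
    refine ⟨max n m, fun D' hD' b w P hE => ?_⟩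
    simp only [List.mem_cons] at hD'
    rcases hD' with rfl | hD'
    · exact (hm b w P hE).mono (le_max_right _ _)
    · exact (hn D' hD' b w P hE).mono (le_max_left _ _)

theorem HasFive.mono' {S T : Finset Cell} (h : HasFive S) (hST : S ⊆ T) : HasFive T := by
  obtain ⟨L, hL, hLS⟩ := h
  exact ⟨L, hL, hLS.trans hST⟩

/-- Black wins at once if `insert t B` has a five and `t` is not white -/
theorem win_of_imm {B b w : Finset Cell} {t : Cell} (hB : B ⊆ b) (h5 : HasFive (insert t B))
    (ht : t ∉ w) (n : ℕ) : Win (n+1) b w := by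
  by_cases htb : t ∈ b
  · obtain ⟨z, hz⟩ := exists_free (b ∪ w)
    rw [Finset.mem_union, not_or] at hz
    refine Win.of_five hz.1 hz.2 (h5.mono' ?_)
    rw [Finset.insert_subset_iff]
    exact ⟨Finset.mem_insert_of_mem htb, hB.trans (Finset.subset_insert _ _)⟩
  · exact Win.of_five htb ht (h5.mono' (Finset.insert_subset_insert _ hB))

/-- One white reply `y` (not in the pair) at an AND node. -/
theorem and_step2 {B W K : Finset Cell} {cap : Finset Cell → ℕ}
    (hWK : W ⊆ K)
    (hchk : ∀ L, IsLine L → Disjoint L B → (L ∩ W).card + ceff K cap L ≤ 3)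
    {I : List Data} {n : ℕ}
    (hn : ∀ D ∈ I, ∀ b w P, Ctx D.B D.W D.K D.cap b w P → Win n b w)
    {y : Cell} (hcov : y ∉ B → ImmWin2 B W K y ∨ ∃ D ∈ I, Covers2 B W K cap D y)
    {b w : Finset Cell} {P : Option (Cell × Cell)} (hE : Ctx B W K cap b w P)
    (hyb : y ∉ b) (hyw : y ∉ w)
    (hyP : ∀ p q, P = some (p, q) → y ≠ p ∧ y ≠ q) :
    ¬ HasFive (insert y w) ∧ Win (n+1) b (insert y w) := by
  refine ⟨hE.no_five hchk hyb, ?_⟩
  have hB := hE.hB
  have hXK := hE.hK
  rcases hcov (fun h => hyb (hB h)) with ⟨t, htK, htW, hty, h5⟩ | ⟨D, hD, hc⟩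
  · refine win_of_imm hB h5 ?_ n
    rw [Finset.mem_insert, not_or]
    refine ⟨hty, fun h => ?_⟩
    exact Finset.disjoint_left.1 hXK (Finset.mem_sdiff.2 ⟨h, htW⟩) htK
  · obtain ⟨hDB, hWK', hKK, hcap⟩ := hc
    have e : W ∪ {y} = insert y W := by
      rw [Finset.union_comm, ← Finset.insert_eq]
    have htr : Ctx D.B D.W D.K D.cap (b ∪ ∅) (w ∪ {y}) P := by
      refine hE.transfer (Z := ∅) (Q := {y}) ?_ hKK (Finset.disjoint_empty_left _)
        (Finset.disjoint_empty_left _) ?_ ?_ ?_ ?_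
      · rw [Finset.union_empty]; exact hDB.trans hB
      · rw [Finset.disjoint_singleton_right]; exact hyb
      · rw [e]; exact hWK'
      · intro p q hP
        obtain ⟨h1, h2⟩ := hyP p q hP
        refine ⟨⟨Finset.notMem_empty _, Finset.notMem_empty _⟩, ?_, ?_⟩
        · rw [Finset.mem_singleton]; exact fun h => h1 h.symm
        · rw [Finset.mem_singleton]; exact fun h => h2 h.symm
      · intro L hL hd
        rw [e]
        apply hcap L hL
        rw [Finset.union_empty] at hd
        exact Finset.disjoint_of_subset_right hB hd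
    have hw := hn D hD _ _ P htr
    rw [Finset.union_empty] at hw
    have e2 : w ∪ {y} = insert y w := by
      rw [Finset.union_comm, ← Finset.insert_eq]
    rw [e2] at hw
    exact hw.succ

/-- The protected pair is handled once. -/
theorem andValid2_of_step {B W K : Finset Cell} {cap : Finset Cell → ℕ}
    (hchk : ∀ L, IsLine L → Disjoint L B → (L ∩ W).card + ceff K cap L ≤ 3) {n : ℕ}
    (main : ∀ b w P, Ctx B W K cap b w P → ∀ y, y ∉ b → y ∉ w →
      (∀ p q, P = some (p, q) → y ≠ p ∧ y ≠ q) →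
      ¬ HasFive (insert y w) ∧ Win n b (insert y w)) :
    AndValid2 ⟨B, W, K, cap⟩ := by
  refine ⟨n + 1, fun b w P hE => ?_⟩
  intro y hyb hyw
  simp only at hE
  rcases P with _ | ⟨p, q⟩
  · obtain ⟨h1, h2⟩ := main b w none hE y hyb hyw (by intro p q h; simp at h)
    exact ⟨h1, h2.succ⟩
  · by_cases hyp : y = p ∨ y = q
    · obtain ⟨⟨hpq, hpK, hqK, hpw, hqw, hpb, hqb⟩, hrest⟩ := id hE
      refine ⟨hE.no_five hchk hyb, ?_⟩
      rcases hyp with rfl | rfl
      · have r := hE.resolve1
        apply Win.of_and (b := q) hqb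
        · rw [Finset.mem_insert, not_or]
          exact ⟨hpq.symm, hqw⟩
        · intro z hz hz'
          exact main _ _ none r z hz hz' (by intro p q h; simp at h)
      · have r := hE.resolve2
        apply Win.of_and (b := p) hpb
        · rw [Finset.mem_insert, not_or]
          exact ⟨hpq, hpw⟩
        · intro z hz hz'
          exact main _ _ none r z hz hz' (by intro p q h; simp at h)
    · rw [not_or] at hyp
      obtain ⟨h1, h2⟩ := main b w (some (p, q)) hE y hyb hyw (by
        intro p' q' h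
        simp only [Option.some.injEq, Prod.mk.injEq] at h
        obtain ⟨rfl, rfl⟩ := h
        exact hyp)
      exact ⟨h1, h2.succ⟩

/-- The general rule for an AND node. -/
theorem andValid2_of_items {B W K : Finset Cell} {cap : Finset Cell → ℕ}
    (hWK : W ⊆ K)
    (hchk : ∀ L, IsLine L → Disjoint L B → (L ∩ W).card + ceff K cap L ≤ 3)
    (I : List Data) (hI : ∀ D ∈ I, Valid2 D)
    (hcov : ∀ y, y ∉ B → ImmWin2 B W K y ∨ ∃ D ∈ I, Covers2 B W K cap D y) :
    AndValid2 ⟨B, W, K, cap⟩ := by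
  obtain ⟨n, hn⟩ := exists_bound2 I hI
  exact andValid2_of_step (n := n + 1) hchk
    (fun b w P hE y hyb hyw hyP => and_step2 hWK hchk hn (hcov y) hE hyb hyw hyP)

/-- a reply on a (missing) white stone is covered by whatever covers some other reply -/
theorem Covers2.of_mem {B W K : Finset Cell} {cap : Finset Cell → ℕ} {D : Data} {y z : Cell}
    (h : Covers2 B W K cap D z) (hy : y ∈ W) : Covers2 B W K cap D y := by
  obtain ⟨h1, h2, h3, h4⟩ := h
  have hsub : insert y W \ D.W ⊆ insert z W \ D.W := by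
    rw [Finset.insert_eq_of_mem hy]
    exact Finset.sdiff_subset_sdiff (Finset.subset_insert _ _) (Finset.Subset.refl _)
  refine ⟨h1, Finset.disjoint_of_subset_left hsub h2, h3, ?_⟩
  intro L hL hd
  have := h4 L hL hd
  have h5 : (L ∩ (insert y W \ D.W)).card ≤ (L ∩ (insert z W \ D.W)).card :=
    Finset.card_le_card (Finset.inter_subset_inter_left hsub)
  omega

/-- The rule for an AND node; replies on stones of `W` need no care. -/
theorem andValid2_of_items' {B W K : Finset Cell} {cap : Finset Cell → ℕ}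
    (hWK : W ⊆ K)
    (hchk : ∀ L, IsLine L → Disjoint L B → (L ∩ W).card + ceff K cap L ≤ 3)
    (I : List Data) (hI : ∀ D ∈ I, Valid2 D)
    (hcov : ∀ y, y ∉ B → y ∉ W → ∃ D ∈ I, Covers2 B W K cap D y) :
    AndValid2 ⟨B, W, K, cap⟩ := by
  apply andValid2_of_items hWK hchk I hI
  intro y hyB
  right
  by_cases hyW : y ∈ W
  · obtain ⟨z, hz⟩ := exists_free (B ∪ W)
    rw [Finset.mem_union, not_or] at hz
    obtain ⟨D, hD, hc⟩ := hcov z hz.1 hz.2
    exact ⟨D, hD, hc.of_mem hyW⟩
  · exact hcov y hyB hyW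

/-- The OR node: Black plays `c`. -/
theorem valid2_of_and {B W K K' : Finset Cell} {cap cap' : Finset Cell → ℕ} {c : Cell}
    (hcW : c ∉ W) (hcK : c ∈ K) (hKK : K' ⊆ K)
    (hcap : ∀ L, IsLine L → Disjoint L (insert c B) → ceff K cap L ≤ cap' L)
    (h : AndValid2 ⟨insert c B, W, K', cap'⟩) : Valid2 ⟨B, W, K, cap⟩ := by
  obtain ⟨n, hn⟩ := h
  refine ⟨n + 1, fun b w P hE => ?_⟩
  simp only at hE hn
  have hB := hE.hB
  have hXK := hE.hK
  have hbw := hE.hbw
  -- the move z: c if c is free, otherwise any free cell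
  have main : ∀ z, z ∉ b → z ∉ w → (∀ p q, P = some (p, q) → p ≠ z ∧ q ≠ z) →
      insert c B ⊆ insert z b → Win (n+1) b w := by
    intro z hzb hzw hzP hsub
    apply Win.of_and hzb hzw
    have e : b ∪ {z} = insert z b := by
      rw [Finset.union_comm, ← Finset.insert_eq]
    have htr : Ctx (insert c B) W K' cap' (b ∪ {z}) (w ∪ ∅) P := by
      refine hE.transfer (Z := {z}) (Q := ∅) (by rwa [e]) hKK ?_
        (Finset.disjoint_empty_right _) (Finset.disjoint_empty_right _) ?_ ?_ ?_
      · rw [Finset.disjoint_singleton_left]; exact hzw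
      · rw [Finset.union_empty, Finset.sdiff_self]; exact Finset.disjoint_empty_left _
      · intro p q hP
        obtain ⟨h1, h2⟩ := hzP p q hP
        refine ⟨⟨?_, ?_⟩, Finset.notMem_empty _, Finset.notMem_empty _⟩
        · rwa [Finset.mem_singleton]
        · rwa [Finset.mem_singleton]
      · intro L hL hd
        rw [Finset.union_empty, Finset.sdiff_self, Finset.inter_empty, Finset.card_empty,
          Nat.zero_add]
        apply hcap L hL
        rw [e] at hd
        exact Finset.disjoint_of_subset_right hsub hd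
    have := hn _ _ P htr
    rwa [e, Finset.union_empty] at this
  by_cases hcb : c ∈ b
  · let S : Finset Cell := match P with
      | none => b ∪ w
      | some (p, q) => insert p (insert q (b ∪ w))
    obtain ⟨z, hz⟩ := exists_free S
    have hzbw : z ∉ b ∪ w := by
      rcases P with _ | ⟨p, q⟩
      · exact hz
      · exact fun h => hz (Finset.mem_insert_of_mem (Finset.mem_insert_of_mem h))
    rw [Finset.mem_union, not_or] at hzbw
    refine main z hzbw.1 hzbw.2 ?_ ?_
    · intro p q hP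
      subst hP
      constructor
      · rintro rfl
        exact hz (Finset.mem_insert_self _ _)
      · rintro rfl
        exact hz (Finset.mem_insert_of_mem (Finset.mem_insert_self _ _))
    · rw [Finset.insert_subset_iff]
      exact ⟨Finset.mem_insert_of_mem hcb, hB.trans (Finset.subset_insert _ _)⟩
  · refine main c hcb ?_ ?_ (Finset.insert_subset_insert _ hB)
    · intro h
      exact Finset.disjoint_left.1 hXK (Finset.mem_sdiff.2 ⟨h, hcW⟩) hcK
    · intro p q hP
      subst hP
      obtain ⟨⟨hpq, hpK, hqK, -⟩, -⟩ := hE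
      exact ⟨fun h => hpK (h ▸ hcK), fun h => hqK (h ▸ hcK)⟩

/-- FIVE rule. -/
theorem valid2_of_five {B W K : Finset Cell} {cap : Finset Cell → ℕ} {c : Cell}
    (hcW : c ∉ W) (hcK : c ∈ K) (h : HasFive (insert c B)) :
    Valid2 ⟨B, W, K, cap⟩ := by
  refine ⟨1, fun b w P hE => ?_⟩
  refine win_of_imm hE.hB h ?_ 0
  intro h1
  exact Finset.disjoint_left.1 hE.hK (Finset.mem_sdiff.2 ⟨h1, hcW⟩) hcK

/-- Use of an item at an OR node. -/
theorem valid2_of_item {B W K : Finset Cell} {cap : Finset Cell → ℕ} {D : Data}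
    (hV : Valid2 D) (hDB : D.B ⊆ B) (hWK : Disjoint (W \ D.W) D.K) (hKK : D.K ⊆ K)
    (hcap : ∀ L, IsLine L → Disjoint L B → (L ∩ (W \ D.W)).card + ceff K cap L ≤ D.cap L) :
    Valid2 ⟨B, W, K, cap⟩ := by
  obtain ⟨n, hn⟩ := hV
  refine ⟨n, fun b w P hE => ?_⟩
  simp only at hE
  have htr : Ctx D.B D.W D.K D.cap (b ∪ ∅) (w ∪ ∅) P := by
    refine hE.transfer (Z := ∅) (Q := ∅) ?_ hKK (Finset.disjoint_empty_left _)
      (Finset.disjoint_empty_left _) (Finset.disjoint_empty_right _) ?_ ?_ ?_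
    · rw [Finset.union_empty]; exact hDB.trans hE.hB
    · rw [Finset.union_empty]; exact hWK
    · intro p q _
      exact ⟨⟨Finset.notMem_empty _, Finset.notMem_empty _⟩, Finset.notMem_empty _,
        Finset.notMem_empty _⟩
    · intro L hL hd
      rw [Finset.union_empty] at hd ⊢
      exact hcap L hL (Finset.disjoint_of_subset_right hE.hB hd)
  have := hn _ _ P htr
  rwa [Finset.union_empty, Finset.union_empty] at this

/-- Weakening of the constraints. -/
theorem Valid2.weaken {B W K K' : Finset Cell} {cap cap' : Finset Cell → ℕ}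
    (hKK : K' ⊆ K) (hcap : ∀ L, IsLine L → Disjoint L B → ceff K cap L ≤ cap' L)
    (h : Valid2 ⟨B, W, K', cap'⟩) : Valid2 ⟨B, W, K, cap⟩ := by
  apply valid2_of_item h (Finset.Subset.refl _) _ hKK
  · intro L hL hd
    simp only
    rw [Finset.sdiff_self, Finset.inter_empty, Finset.card_empty, Nat.zero_add]
    exact hcap L hL hd
  · simp only
    rw [Finset.sdiff_self]; exact Finset.disjoint_empty_left _

/-- The FOUR rule: `insert t B` contains a five; all replies other than `t` lose at once. -/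
theorem andValid2_four {B W K K' : Finset Cell} {cap cap' : Finset Cell → ℕ} {t : Cell}
    (hWK : W ⊆ K)
    (htW : t ∉ W) (htK : t ∈ K) (h5 : HasFive (insert t B))
    (hchk : ∀ L, IsLine L → Disjoint L B → (L ∩ W).card + ceff K cap L ≤ 3)
    (hKK : K' ⊆ K) (hcap : ∀ L, IsLine L → Disjoint L B → ceff K cap L ≤ cap' L)
    (h : Valid2 ⟨B, insert t W, K', cap'⟩) : AndValid2 ⟨B, W, K, cap⟩ := by
  apply andValid2_of_items hWK hchk [⟨B, insert t W, K', cap'⟩] (by simpa using h)
  intro y hyB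
  by_cases hy : y = t
  · subst hy
    right
    refine ⟨_, List.mem_singleton.2 rfl, Finset.Subset.refl _, ?_, hKK, ?_⟩
    · simp
    · intro L hL hd
      simpa using hcap L hL hd
  · left
    exact ⟨t, htK, htW, fun h => hy h.symm, h5⟩

/-- a child evaluated with a group `G` of white stones covers every reply in the group -/
theorem covers2_group {B W K K' G : Finset Cell} {cap cap' : Finset Cell → ℕ} {y : Cell}
    (hy : y ∈ G) (hKK : K' ⊆ K)
    (hcap : ∀ L, IsLine L → Disjoint L B → ceff K cap L ≤ cap' L) :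
    Covers2 B W K cap ⟨B, G ∪ W, K', cap'⟩ y := by
  have e : insert y W \ (G ∪ W) = ∅ := by
    rw [Finset.sdiff_eq_empty_iff_subset, Finset.insert_subset_iff]
    exact ⟨Finset.mem_union_left _ hy, Finset.subset_union_right⟩
  refine ⟨Finset.Subset.refl _, ?_, hKK, ?_⟩
  · simp only
    rw [e]; exact Finset.disjoint_empty_left _
  · intro L hL hd
    simp only
    rw [e, Finset.inter_empty, Finset.card_empty, Nat.zero_add]
    exact hcap L hL hd

theorem Env.ctx {B W K X Y : Finset Cell} {cap : Finset Cell → ℕ} {P : Option (Cell × Cell)}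
    (hE : Env B K cap X Y P) (hBK : B ⊆ K) (hWK : W ⊆ K) (hBW : Disjoint B W) :
    Ctx B W K cap (B ∪ Y) (W ∪ X) P := by
  have hXY := hE.disj_XY
  have hXK := hE.disj_XK
  have hYK := hE.disj_YK
  have hdis : Disjoint (B ∪ Y) (W ∪ X) := by
    rw [Finset.disjoint_union_left, Finset.disjoint_union_right, Finset.disjoint_union_right]
    exact ⟨⟨hBW, (Finset.disjoint_of_subset_right hBK hXK).symm⟩,
      ⟨Finset.disjoint_of_subset_right hWK hYK, hXY.symm⟩⟩
  have hsub : ∀ X1 : Finset Cell, (W ∪ X1) \ W ⊆ X1 := by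
    intro X1 c hc
    rw [Finset.mem_sdiff, Finset.mem_union] at hc
    tauto
  have hle : ∀ L X1 : Finset Cell, (L ∩ ((W ∪ X1) \ W)).card ≤ (L ∩ X1).card :=
    fun L X1 => Finset.card_le_card (Finset.inter_subset_inter_left (hsub X1))
  rcases P with _ | ⟨p, q⟩
  · obtain ⟨-, -, -, hW⟩ := hE
    refine ⟨Finset.subset_union_left, hdis, Finset.disjoint_of_subset_left (hsub X) hXK, ?_⟩
    intro L hL hd
    exact (hle L X).trans (hW L hL hd)
  · obtain ⟨⟨hpq, hpK, hqK, hpX, hqX, hpY, hqY⟩, -, -, -, hP, h1, h2⟩ := hE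
    have e : ∀ p : Cell, insert p (W ∪ X) = W ∪ insert p X := fun p => by
      rw [Finset.union_insert]
    have e' : ∀ p : Cell, insert p (B ∪ Y) = B ∪ insert p Y := fun p => by
      rw [Finset.union_insert]
    refine ⟨⟨hpq, hpK, hqK, ?_, ?_, ?_, ?_⟩, Finset.subset_union_left, hdis,
      Finset.disjoint_of_subset_left (hsub X) hXK, ?_, ?_, ?_⟩
    · rw [Finset.mem_union, not_or]; exact ⟨fun h => hpK (hWK h), hpX⟩
    · rw [Finset.mem_union, not_or]; exact ⟨fun h => hqK (hWK h), hqX⟩
    · rw [Finset.mem_union, not_or]; exact ⟨fun h => hpK (hBK h), hpY⟩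
    · rw [Finset.mem_union, not_or]; exact ⟨fun h => hqK (hBK h), hqY⟩
    · intro L hL hd hn'
      exact (hle L X).trans (hP L hL hd hn')
    · intro L hL hd
      rw [e' q] at hd
      rw [e p]
      exact (hle L _).trans (h1 L hL hd)
    · intro L hL hd
      rw [e' p] at hd
      rw [e q]
      exact (hle L _).trans (h2 L hL hd)

/-- the first semantics follows -/
theorem Valid2.valid {D : Data} (h : Valid2 D) (hBK : D.B ⊆ D.K) (hWK : D.W ⊆ D.K)
    (hBW : Disjoint D.B D.W) : Valid D := by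
  obtain ⟨n, hn⟩ := h
  exact ⟨n, fun X Y P hE => hn _ _ P (hE.ctx hBK hWK hBW)⟩

/-- G nodes from items of the second semantics -/
theorem gValid_of_items2 {B K : Finset Cell} {capJ : Finset Cell → ℕ} (hBK : B ⊆ K)
    (hchk : ∀ y, y ∉ B → ∀ L, IsLine L → Disjoint L B →
      (L ∩ (∅ : Finset Cell)).card + ceff K (capy capJ y) L ≤ 3)
    (I : List Data) (hI : ∀ D ∈ I, Valid2 D)
    (hcov : ∀ y, y ∉ B → ∃ D ∈ I, Covers2 B ∅ K (capy capJ y) D y) :
    GValid B ∅ K capJ := by
  obtain ⟨n, hn⟩ := exists_bound2 I hI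
  refine ⟨n + 1, fun y hyB _ X Y P hE hyY hyX hyP => ?_⟩
  have hc := hE.ctx hBK (Finset.empty_subset _) (Finset.disjoint_empty_right _)
  exact and_step2 (Finset.empty_subset _) (hchk y hyB) hn (fun h => Or.inr (hcov y h)) hc
    (by rw [Finset.mem_union]; tauto)
    (by rw [Finset.mem_union, not_or]; exact ⟨Finset.notMem_empty _, hyX⟩) hyP

/-- plain use of an item -/
theorem Valid2.plain {D : Data} (h : Valid2 D) : ∃ n, ∀ b w : Finset Cell, D.B ⊆ b →
    Disjoint b w → Disjoint (w \ D.W) D.K → CapOK D.cap (w \ D.W) b → Win n b w := by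
  obtain ⟨n, hn⟩ := h
  exact ⟨n, fun b w h1 h2 h3 h4 => hn b w none ⟨h1, h2, h3, h4⟩⟩

/-- fewer white stones are better for Black -/
theorem Win.anti_w {n : ℕ} : ∀ {B W W' : Finset Cell}, Win n B W → W' ⊆ W → Win n B W' := by
  induction n with
  | zero => intro B W W' h; exact h.elim
  | succ n ih =>
    intro B W W' h hW
    obtain ⟨c, hc, hc', h⟩ := h
    refine ⟨c, hc, fun h1 => hc' (hW h1), ?_⟩
    rcases h with h | h
    · exact Or.inl h
    · refine Or.inr fun y hy hy' => ?_
      by_cases hyW : y ∈ W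
      · obtain ⟨z, hz⟩ := exists_free (insert c B ∪ W)
        rw [Finset.mem_union, not_or] at hz
        obtain ⟨h1, h2⟩ := h z hz.1 hz.2
        have hsub : insert y W' ⊆ insert z W := by
          rw [Finset.insert_subset_iff]
          exact ⟨Finset.mem_insert_of_mem hyW, hW.trans (Finset.subset_insert _ _)⟩
        exact ⟨fun h5 => h1 (h5.mono' hsub), ih h2 hsub⟩
      · obtain ⟨h1, h2⟩ := h y hy hyW
        have hsub : insert y W' ⊆ insert y W := Finset.insert_subset_insert _ hW
        exact ⟨fun h5 => h1 (h5.mono' hsub), ih h2 hsub⟩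

end Pool.Agent.Gomoku
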