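import Pool.Agent.Helper47.Gom2.Eval
import Pool.Agent.Helper47.Gom2.Sem
import Pool.Agent.Helper47.Gomoku.EvalGSound

set_option autoImplicit false

namespace Pool.Agent.Gomoku

open Finset

/-- validity of an item at all allowed translations -/
def ItemValid2 (it : Item) : Prop :=
  1 ≤ it.g ∧ it.g ≤ 3 ∧
    ∀ off dx dy, dx ≤ it.mx → dy ≤ it.my → Valid2 (it.data off dx dy)

theorem tb_log2 {X : ℕ} (h : X ≠ 0) : X.testBit (Nat.log2 X) = true := by
  rw [Nat.testBit_eq_decide_div_mod_eq]
  have h1 : 2 ^ X.log2 ≤ X := Nat.log2_self_le h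
  have h2 : X < 2 ^ (X.log2 + 1) := Nat.lt_log2_self
  have h3 : X / 2 ^ X.log2 = 1 := by
    apply Nat.div_eq_of_lt_le
    · omega
    · rw [pow_succ] at h2; omega
  rw [h3]
  rfl

theorem Inv.strip {off : Cell} {s : St} (h : Inv off s) : Inv off (strip s) := by
  have h0 : dec off (Gomoku.strip s).w = ∅ := dec_zero
  constructor
  · exact h.bi
  · intro i hi; simp [Gomoku.strip] at hi
  · rw [h0]; exact Finset.disjoint_empty_right _
  · exact h.lv
  all_goals
    intro k hk _ h
    rw [h0] at h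
    simp at h

theorem xst_spec {off : Cell} {s : St} (hs : Inv off s) : ∀ (n X : ℕ) (t : St), Inv off t →
    t.b = s.b → Sub X s.w → Inv off (xst n X t) ∧ (xst n X t).b = s.b := by
  intro n
  induction n with
  | zero => intro X t ht hb _; exact ⟨ht, hb⟩
  | succ n ih =>
    intro X t ht hb hX
    unfold xst
    simp only
    rw [cond_eq_ite]
    split_ifs with h0
    · exact ⟨ht, hb⟩
    · have hX0 : X ≠ 0 := by
        rintro rfl
        exact h0 rfl
      have hbit := tb_log2 hX0
      have hw := hX _ hbit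
      have hin := hs.wi _ hw
      have hbb : t.b.testBit (Nat.log2 X) = false := by
        rw [hb]
        cases hc : s.b.testBit (Nat.log2 X)
        · rfl
        · exfalso
          exact Finset.disjoint_left.1 hs.disj ((cellOf_mem_dec (inner_lt hin)).2 hc)
            ((cellOf_mem_dec (inner_lt hin)).2 hw)
      refine ih _ _ (ht.addW hin hbb) hb ?_
      intro i hi
      rw [tb_xor', tb_bit] at hi
      by_cases h : Nat.log2 X = i
      · rw [← h, hbit] at hi
        simp at hi
      · simp only [h, decide_false, Bool.xor_false] at hi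
        exact hX i hi
where
  tb_xor' : ∀ (x y i : ℕ), (Nat.xor x y).testBit i = (x.testBit i ^^ y.testBit i) :=
    fun x y i => Nat.testBit_xor x y i

theorem dec_minus {off : Cell} {x t : ℕ} : dec off (minus x t) = dec off x \ dec off t := by
  ext c
  rw [Finset.mem_sdiff, mem_dec, mem_dec, mem_dec]
  constructor
  · rintro ⟨i, hi, h, rfl⟩
    rw [tb_minus, Bool.and_eq_true, Bool.not_eq_true'] at h
    refine ⟨⟨i, hi, h.1, rfl⟩, ?_⟩
    rintro ⟨j, hj, h2, h3⟩
    have := cellOf_inj hi hj h3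
    subst this
    rw [h.2] at h2
    exact absurd h2 (by simp)
  · rintro ⟨⟨i, hi, h, rfl⟩, h2⟩
    refine ⟨i, hi, ?_, rfl⟩
    rw [tb_minus, h]
    cases ht : t.testBit i
    · rfl
    · exact absurd ⟨i, hi, ht, rfl⟩ h2

/-- what `xs` is -/
theorem xs_inv {off : Cell} {s : St} (hs : Inv off s) (i : Ins) :
    Inv off (xs s i) ∧ (xs s i).b = s.b := by
  unfold xs
  rw [cond_eq_ite]
  split_ifs
  · exact ⟨hs, rfl⟩
  · apply xst_spec hs 40 _ _ hs.strip rfl
    intro j hj
    rw [tb_minus, Bool.and_eq_true] at hj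
    exact hj.1

theorem dec_sub_of_land {off : Cell} {x B : ℕ} (h : Nat.land x B = B) : dec off B ⊆ dec off x := by
  apply Sub.dec
  intro i hi
  rw [← h, tb_land, Bool.and_eq_true] at hi
  exact hi.1

theorem dec_sub_of_lor {off : Cell} {x W : ℕ} (h : Nat.lor x W = W) : dec off x ⊆ dec off W := by
  apply Sub.dec
  intro i hi
  rw [← h, tb_lor, hi]
  rfl

theorem disj_of_land_zero {off : Cell} {x K : ℕ} (h : Nat.land x K = 0) :
    Disjoint (dec off x) (dec off K) := by
  rw [Finset.disjoint_iff_inter_eq_empty, ← dec_land, h, dec_zero]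

structure Fits2 (off : Cell) (s x : St) (i : Ins) : Prop where
  inv : Inv off x
  xb : x.b = s.b
  xw : dec off x.w = dec off s.w \ dec off i.W
  hB : dec off i.B ⊆ dec off s.b
  hK : Disjoint (dec off s.w \ dec off i.W) (dec off i.K)
  hm : Nat.lor (Nat.land i.C1 x.a2) (Nat.land i.C2 x.a3) = 0
  h4 : x.a4 = 0

/-- what `fits2` gives -/
theorem fits2_spec {off : Cell} {s : St} (hs : Inv off s) {i : Ins}
    (h : fits2 s (xs s i) i = true) : Fits2 off s (xs s i) i := by
  unfold fits2 at h
  simp only [Bool.and_eq_true] at h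
  obtain ⟨⟨⟨⟨h1, h2⟩, h3⟩, h4⟩, h5⟩ := h
  have h1 := eq_of_beq h1
  obtain ⟨i1, i2⟩ := xs_inv hs i
  refine ⟨i1, i2, ?_, dec_sub_of_land (eq_of_beq h2), ?_, eq_of_beq h4, eq_of_beq h5⟩
  · rw [h1, dec_minus]
  · rw [← dec_minus]
    exact disj_of_land_zero (eq_of_beq h3)

/-- caps of the instance against the white stones outside of it -/
theorem Fits2.cap {off : Cell} {s x : St} {i : Ins} (h : Fits2 off s x i) {g : ℕ}
    (hg : InsOK g i) {L : Finset Cell} (hL : IsLine L) (hd : Disjoint L (dec off s.b)) :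
    (L ∩ (dec off s.w \ dec off i.W)).card ≤ capOf off i.C1 i.C2 g L ∧
    (capOf off i.C1 i.C2 g L ≤ (L ∩ (dec off s.w \ dec off i.W)).card →
      InMask off (mR0 x i) L) ∧
    (capOf off i.C1 i.C2 g L ≤ (L ∩ (dec off s.w \ dec off i.W)).card + 1 →
      InMask off (mR1 x i) L) ∧
    (g = 3 → capOf off i.C1 i.C2 g L = (L ∩ (dec off s.w \ dec off i.W)).card + 2 →
      InMask off (mR2 x i) L) := by
  have := fits_cap (off := off) h.inv hg h.h4 h.hm hL (by rw [h.xb]; exact hd)
  rwa [h.xw] at this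

end Pool.Agent.Gomoku
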